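import Pool.Agent.Helper66.NE.Good

/-!
# Coherent families of words

A computation may consist of several pieces, which need not be adjacent. Only the following matters: the word of a given
kind is determined by the contents of its cells.
-/

namespace Pool.Agent.Helper6.PQ

open Pool.Agent.Helper74.NW Pool.Agent.Helper74.NE Pool.Agent.Helper19.NF
open Pool.Agent.Helper74.NS (Expands)
open Pool.Agent.Helper66.NE (chg_ne ch2 ch2_ne shift_shift_neg CF_ch2 card_le_sum nonneg_of_DP)
open Pool.Agent.Helper96.NE (card_class' chg_of_not val_chg2 hole_chg2)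

/-- For inputs `I` and `I'` which agree on the words `w` (for `I`) and `w'` (for `I'`) of the same kind `k`, the words are
equal. -/
def Coh {C W κ : Type} (F : κ → (C → W) → List C → Prop) : Prop :=
  ∀ k I I' w w', F k I w → F k I' w' → (∀ c ∈ w, I c = I' c) → (∀ c ∈ w', I c = I' c) → w = w'

/-- Parts of words are words of some kind. -/
def Sub {C W κ : Type} (F : κ → (C → W) → List C → Prop) : Prop :=
  ∀ k I p w q, F k I (p ++ w ++ q) → ∃ k', F k' I w

variable {n d m : ℕ} {B : Type} [AddCommGroup B] [NeZero m] {κ : Type}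
  {F : κ → (B → Fin d × Fin m → B) → List B → Prop}

/-- The instances with two adjacent windows of the given kinds. -/
def InF {a : ℕ} (F : κ → (B → Fin d × Fin m → B) → List B → Prop) (g : Fin d → Equiv.Perm (Fin n))
    (x0 : Fin n × Fin m → B) (T i : ℕ) (u : Fin a → Fin n) (r r' : Fin a → Fin d × Fin m) (k k' : κ)
    (I : B → Fin d × Fin m → B) : Prop :=
  CF (fine g) x0 i I ∧ ∃ w₁ w₂ : List B, F k I w₁ ∧ F k' I w₂ ∧ Nat.card {c // c ∈ w₁ ++ w₂} ≤ T ∧
    ∀ j, (∀ v, val (fine g) x0 I (i + 1) (u j, v) ∈ w₁ ++ w₂) ∧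
      hole g x0 i u r I j ∉ w₁ ∧ hole g x0 i u r' I j ∉ w₂

/-- The windows are the same for all elements of a class with the same `z` (the first) or `y` (the second), so the
product lemma applies. -/
theorem class_bound [Fintype B] (hF : Coh F) (g : Fin d → Equiv.Perm (Fin n)) (x0 : Fin n × Fin m → B)
    {T i a : ℕ} {δ : ℝ} (hδ : DP B (Fin a × Fin m) T δ) (u : Fin a → Fin n) (hu : StrictMono u)
    (r r' : Fin a → Fin d × Fin m) (k k' : κ) (I : B → Fin d × Fin m → B) (hI : CF (fine g) x0 i I) :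
    (Nat.card {y : (Fin a × Fin m → B) × (Fin a × Fin m → B) //
        InF F g x0 T i u r r' k k' (I + chg g x0 i u r y.1 I + chg g x0 i u r' y.2 I)} : ℝ) ≤
      δ * Nat.card ((Fin a × Fin m → B) × (Fin a × Fin m → B)) := by
  classical
  set X : Set ((Fin a × Fin m → B) × (Fin a × Fin m → B)) :=
    {y | InF F g x0 T i u r r' k k' (I + chg g x0 i u r y.1 I + chg g x0 i u r' y.2 I)} with hX
  have hw : ∀ y ∈ X, ∃ w : List B × List B,
      F k (I + chg g x0 i u r y.1 I + chg g x0 i u r' y.2 I) w.1 ∧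
      F k' (I + chg g x0 i u r y.1 I + chg g x0 i u r' y.2 I) w.2 ∧
      Nat.card {c // c ∈ w.1 ++ w.2} ≤ T ∧
      (∀ c : Fin a × Fin m, val (fine g) x0 I (i + 1) (u c.1, c.2) + y.1 c + y.2 c ∈ w.1 ++ w.2) ∧
        ∀ j, hole g x0 i u r I j ∉ w.1 ∧ hole g x0 i u r' I j ∉ w.2 := by
    intro y hy
    obtain ⟨_, w₁, w₂, h1, h2, h3, h4⟩ := hy
    refine ⟨(w₁, w₂), h1, h2, h3, fun c => ?_, fun j => ?_⟩
    · rw [← val_chg2 (r := r) (r' := r') hI hu.injective y.1 y.2]
      exact (h4 c.1).1 c.2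
    · have h5 := (h4 j).2
      rw [hole_chg2 hI, hole_chg2 hI] at h5
      exact h5
  choose! W hW using hw
  refine card_class' hδ (fun c => val (fine g) x0 I (i + 1) (u c.1, c.2)) X (fun y => (W y).1) (fun y => (W y).2)
    ?_ ?_ (fun y hy => (hW y hy).2.2.1) (fun y hy => (hW y hy).2.2.2.1)
  · -- the first window does not depend on `y`
    intro y y' z hp hp'
    have hv : ∀ y y' y'' : Fin a × Fin m → B, (y, z) ∈ X → ∀ c ∈ (W (y, z)).1,
        (I + chg g x0 i u r y' I + chg g x0 i u r' z I) c = (I + chg g x0 i u r y'' I + chg g x0 i u r' z I) c := by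
      intro y y' y'' hp c hc
      have h1 : ∀ j, c ≠ hole g x0 i u r I j := fun j h => ((hW _ hp).2.2.2.2 j).1 (h ▸ hc)
      rw [Pi.add_apply, Pi.add_apply, Pi.add_apply, Pi.add_apply, chg_of_not h1, chg_of_not h1]
    exact hF k _ _ _ _ (hW _ hp).1 (hW _ hp').1 (hv y y y' hp) (hv y' y y' hp')
  · -- the second window does not depend on `z`
    intro y z z' hp hp'
    have hv : ∀ z z' z'' : Fin a × Fin m → B, (y, z) ∈ X → ∀ c ∈ (W (y, z)).2,
        (I + chg g x0 i u r y I + chg g x0 i u r' z' I) c = (I + chg g x0 i u r y I + chg g x0 i u r' z'' I) c := by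
      intro z z' z'' hp c hc
      have h1 : ∀ j, c ≠ hole g x0 i u r' I j := fun j h => ((hW _ hp).2.2.2.2 j).2 (h ▸ hc)
      rw [Pi.add_apply, Pi.add_apply, Pi.add_apply, Pi.add_apply, chg_of_not h1, chg_of_not h1]
    exact hF k' _ _ _ _ (hW _ hp).2.1 (hW _ hp').2.1 (hv z z z' hp) (hv z' z z' hp')

/-- The number of instances of one type. -/
theorem type_bound [Fintype B] (hF : Coh F) (g : Fin d → Equiv.Perm (Fin n)) (x0 : Fin n × Fin m → B)
    {T i a : ℕ} {δ : ℝ} (hδ : DP B (Fin a × Fin m) T δ) (u : Fin a → Fin n) (hu : StrictMono u)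
    (r r' : Fin a → Fin d × Fin m) (k k' : κ) :
    (Nat.card {I : B → Fin d × Fin m → B // InF F g x0 T i u r r' k k' I} : ℝ) ≤
      δ * Nat.card (B → Fin d × Fin m → B) := by
  classical
  have hδ0 := nonneg_of_DP hδ
  let V : Type := B → Fin d × Fin m → B
  let Y : Type := (Fin a × Fin m → B) × (Fin a × Fin m → B)
  -- pairs of an instance and a change
  let PP : Type := {p' : V × Y // CF (fine g) x0 i p'.1 ∧
    InF F g x0 T i u r r' k k' (p'.1 + ch2 g x0 i u r r' p'.2 p'.1)}
  have e1 : {I : V // InF F g x0 T i u r r' k k' I} × Y ≃ PP :=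
    { toFun := fun q => ⟨(q.1.1 + ch2 g x0 i u r r' (-q.2) q.1.1, q.2), CF_ch2 q.1.2.1 _, by
        have h := shift_shift_neg (u := u) (r := r) (r' := r') q.1.2.1 (-q.2)
        rw [neg_neg] at h
        show InF F g x0 T i u r r' k k' (q.1.1 + ch2 g x0 i u r r' (-q.2) q.1.1 +
          ch2 g x0 i u r r' q.2 (q.1.1 + ch2 g x0 i u r r' (-q.2) q.1.1))
        rw [h]
        exact q.1.2⟩
      invFun := fun q => (⟨q.1.1 + ch2 g x0 i u r r' q.1.2 q.1.1, q.2.2⟩, q.1.2)
      left_inv := by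
        rintro ⟨⟨I, hI⟩, y⟩
        have h := shift_shift_neg (u := u) (r := r) (r' := r') hI.1 (-y)
        rw [neg_neg] at h
        refine Prod.ext (Subtype.ext ?_) rfl
        exact h
      right_inv := by
        rintro ⟨⟨I, y⟩, h1, h2⟩
        refine Subtype.ext (Prod.ext ?_ rfl)
        exact shift_shift_neg (u := u) (r := r) (r' := r') h1 y }
  have e2 : PP ≃ Σ I : {I : V // CF (fine g) x0 i I},
      {y : Y // InF F g x0 T i u r r' k k' (I.1 + ch2 g x0 i u r r' y I.1)} :=
    { toFun := fun q => ⟨⟨q.1.1, q.2.1⟩, ⟨q.1.2, q.2.2⟩⟩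
      invFun := fun q => ⟨(q.1.1, q.2.1), q.1.2, q.2.2⟩
      left_inv := fun q => rfl
      right_inv := fun q => rfl }
  have h1 : Nat.card {I : V // InF F g x0 T i u r r' k k' I} * Nat.card Y = Nat.card PP := by
    rw [← Nat.card_congr e1]
    exact (Nat.card_prod _ _).symm
  have h2 : (Nat.card PP : ℝ) ≤ δ * Nat.card Y * Nat.card V := by
    rw [Nat.card_congr e2, Nat.card_eq_fintype_card, Fintype.card_sigma]
    push_cast
    calc ∑ I : {I : V // CF (fine g) x0 i I},
          (Fintype.card {y : Y // InF F g x0 T i u r r' k k' (I.1 + ch2 g x0 i u r r' y I.1)} : ℝ)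
        ≤ ∑ _I : {I : V // CF (fine g) x0 i I}, δ * Nat.card Y := by
          refine Finset.sum_le_sum fun I _ => ?_
          rw [← Nat.card_eq_fintype_card]
          have h6 := class_bound hF g x0 hδ u hu r r' k k' I.1 I.2
          refine le_trans (le_of_eq ?_) h6
          have h7 : ∀ y : Y, InF F g x0 T i u r r' k k' (I.1 + ch2 g x0 i u r r' y I.1) ↔
              InF F g x0 T i u r r' k k' (I.1 + chg g x0 i u r y.1 I.1 + chg g x0 i u r' y.2 I.1) := by
            intro y
            show InF F g x0 T i u r r' k k'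
              (I.1 + (chg g x0 i u r y.1 I.1 + chg g x0 i u r' y.2 I.1)) ↔ _
            rw [← add_assoc]
          exact congrArg _ (Nat.card_congr (Equiv.subtypeEquivRight h7))
      _ = δ * Nat.card Y * Fintype.card {I : V // CF (fine g) x0 i I} := by
          rw [Finset.sum_const, Finset.card_univ, nsmul_eq_mul, mul_comm]
      _ ≤ δ * Nat.card Y * Nat.card V := by
          rw [Nat.card_eq_fintype_card (α := V)]
          refine mul_le_mul_of_nonneg_left ?_ (by positivity)
          exact_mod_cast Fintype.card_subtype_le _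
  have h3 : (0 : ℝ) < Nat.card Y := by
    have : Nonempty Y := ⟨0⟩
    exact_mod_cast Nat.card_pos
  have h4 : (Nat.card {I : V // InF F g x0 T i u r r' k k' I} : ℝ) * Nat.card Y ≤
      δ * Nat.card V * Nat.card Y := by
    rw [show δ * (Nat.card V : ℝ) * Nat.card Y = δ * Nat.card Y * Nat.card V by ring]
    refine le_trans (le_of_eq ?_) h2
    exact_mod_cast h1
  exact le_of_mul_le_mul_right h4 h3

/-- All types. -/
theorem good_bound [Fintype B] [Fintype κ] (hF : Coh F) (hS : Sub F) (g : Fin d → Equiv.Perm (Fin n))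
    (x0 : Fin n × Fin m → B) {R T a : ℕ} {δ : ℝ} (hδ : DP B (Fin a × Fin m) T δ) (ha : 1 ≤ a) (hE : Expands g a) :
    (Nat.card {I : B → Fin d × Fin m → B // CF (fine g) x0 R I ∧ ∃ k l, F k I l ∧
        Nat.card {c // c ∈ l} ≤ T ∧ 4 * a ≤ (full g x0 I R l).card ∧ l.length ≤ 2 ^ R} : ℝ) ≤
      R * n.choose a * ((d * m) ^ a) ^ 2 * (Fintype.card κ : ℝ) ^ 2 * δ * Nat.card (B → Fin d × Fin m → B) := by
  classical
  let V : Type := B → Fin d × Fin m → B
  let τ : Type := Fin R × {D : Finset (Fin n) // D.card = a} × (Fin a → Fin d × Fin m) ×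
    (Fin a → Fin d × Fin m) × κ × κ
  -- every good instance has a type
  have hty : ∀ I : V, (CF (fine g) x0 R I ∧ ∃ k l, F k I l ∧
      Nat.card {c // c ∈ l} ≤ T ∧ 4 * a ≤ (full g x0 I R l).card ∧ l.length ≤ 2 ^ R) →
      ∃ x : τ, InF F g x0 T x.1 (x.2.1.1.orderEmbOfFin x.2.1.2) x.2.2.1 x.2.2.2.1 x.2.2.2.2.1
        x.2.2.2.2.2 I := by
    rintro I ⟨hI, k, l, hb, hT, hout, hlen⟩
    by_cases hcon : ∀ i < R, ∀ p w₁ w₂ q, l = p ++ w₁ ++ w₂ ++ q → (bad g x0 I i w₁ w₂).card < a
    · exfalso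
      have h := Pool.Agent.Helper1.NE.long ha hE hI l hout hcon
      omega
    · push Not at hcon
      obtain ⟨i, hi, p, w₁, w₂, q, hl, hw⟩ := hcon
      obtain ⟨D, hD, hDa⟩ := Finset.exists_subset_card_eq hw
      obtain ⟨k₁, hb1⟩ := hS k I p w₁ (w₂ ++ q) (by
        have : p ++ w₁ ++ (w₂ ++ q) = l := by rw [hl]; simp only [List.append_assoc]
        rw [this]
        exact hb)
      obtain ⟨k₂, hb2⟩ := hS k I (p ++ w₁) w₂ q (by rw [← hl]; exact hb)
      have hh : ∀ j : Fin a, (∀ v, val (fine g) x0 I (i + 1) (D.orderEmbOfFin hDa j, v) ∈ w₁ ++ w₂) ∧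
          (∃ c : Fin d × Fin m, val (fine g) x0 I i (g c.1 (D.orderEmbOfFin hDa j), c.2) ∉ w₁) ∧
          ∃ c : Fin d × Fin m, val (fine g) x0 I i (g c.1 (D.orderEmbOfFin hDa j), c.2) ∉ w₂ := by
        intro j
        have h := hD (Finset.orderEmbOfFin_mem D hDa j)
        unfold bad full comp at h
        simp only [Finset.mem_filter, Finset.mem_univ, true_and, not_forall] at h
        exact h
      choose hh1 hr hr' using hh
      choose r hr using hr
      choose r' hr' using hr'
      refine ⟨(⟨i, hi⟩, ⟨D, hDa⟩, r, r', k₁, k₂), hI.mono hi.le, w₁, w₂, hb1, hb2, ?_,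
        fun j => ⟨hh1 j, hr j, hr' j⟩⟩
      refine le_trans ?_ hT
      refine Nat.card_le_card_of_injective (fun c : {c // c ∈ w₁ ++ w₂} =>
        (⟨c.1, by
          have h := c.2
          rw [hl]
          simp only [List.mem_append] at h ⊢
          tauto⟩ : {c // c ∈ l})) ?_
      intro c c' h
      exact Subtype.ext (congrArg (fun z : {c // c ∈ l} => z.1) h)
  calc (Nat.card {I : V // CF (fine g) x0 R I ∧ ∃ k l, F k I l ∧
        Nat.card {c // c ∈ l} ≤ T ∧ 4 * a ≤ (full g x0 I R l).card ∧ l.length ≤ 2 ^ R} : ℝ)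
      ≤ ((∑ x : τ, Nat.card {I : V //
          InF F g x0 T x.1 (x.2.1.1.orderEmbOfFin x.2.1.2) x.2.2.1 x.2.2.2.1 x.2.2.2.2.1
            x.2.2.2.2.2 I} : ℕ) : ℝ) := by exact_mod_cast card_le_sum hty
    _ = ∑ x : τ, (Nat.card {I : V //
          InF F g x0 T x.1 (x.2.1.1.orderEmbOfFin x.2.1.2) x.2.2.1 x.2.2.2.1 x.2.2.2.2.1
            x.2.2.2.2.2 I} : ℝ) := by push_cast; rfl
    _ ≤ ∑ _x : τ, δ * Nat.card V := by
        refine Finset.sum_le_sum fun x _ => ?_
        exact type_bound hF g x0 hδ _ (Finset.orderEmbOfFin x.2.1.1 x.2.1.2).strictMono _ _ _ _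
    _ = R * n.choose a * ((d * m) ^ a) ^ 2 * (Fintype.card κ : ℝ) ^ 2 * δ * Nat.card V := by
        rw [Finset.sum_const, Finset.card_univ, nsmul_eq_mul]
        have hc : Fintype.card τ = R * (n.choose a * ((d * m) ^ a * ((d * m) ^ a *
            (Fintype.card κ * Fintype.card κ)))) := by
          show Fintype.card (Fin R × {D : Finset (Fin n) // D.card = a} ×
            (Fin a → Fin d × Fin m) × (Fin a → Fin d × Fin m) × κ × κ) = _
          simp only [Fintype.card_prod, Fintype.card_fin, Fintype.card_fun, Fintype.card_finset_len]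
        rw [hc]
        push_cast
        ring

end Pool.Agent.Helper6.PQ
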