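import Mathlib

/-!
# The parameters for `r ≤ c log ^ 2 k`
-/

namespace Pool.Agent.Helper6.PQ

open Real Filter

theorem eventually_large (η q K M : ℝ) (hη : 0 < η) (hq : 0 < q) : ∀ᶠ k : ℕ in atTop,
    K * log k ^ 5 ≤ (k : ℝ) ^ η ∧ M ≤ (k : ℝ) ^ q ∧ M ≤ log k ∧ 1 ≤ k := by
  have hk : Tendsto (fun k : ℕ => (k : ℝ)) atTop atTop := tendsto_natCast_atTop_atTop
  have h1 : ∀ᶠ x : ℝ in atTop, K * log x ^ 5 ≤ x ^ η := by
    have h2 : (fun x : ℝ => log x ^ (5 : ℝ)) =o[atTop] fun x => x ^ η := isLittleO_log_rpow_rpow_atTop 5 hη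
    have h3 := h2.bound (c := 1 / (|K| + 1)) (by positivity)
    filter_upwards [h3, eventually_ge_atTop 1] with x h4 h5
    have h6 : 0 ≤ log x := log_nonneg h5
    have h7 : log x ^ (5 : ℝ) = log x ^ 5 := by
      rw [← rpow_natCast]
      norm_num
    rw [h7, norm_of_nonneg (pow_nonneg h6 5), norm_of_nonneg (rpow_nonneg (by linarith) η)] at h4
    have h8 : (0 : ℝ) < |K| + 1 := by positivity
    rw [div_mul_eq_mul_div, one_mul, le_div_iff₀ h8] at h4
    calc K * log x ^ 5 ≤ (|K| + 1) * log x ^ 5 := by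
          refine mul_le_mul_of_nonneg_right ?_ (pow_nonneg h6 5)
          linarith [le_abs_self K]
      _ = log x ^ 5 * (|K| + 1) := mul_comm _ _
      _ ≤ _ := h4
  have h2 := hk.eventually h1
  have h3 := ((tendsto_rpow_atTop hq).comp hk).eventually_ge_atTop M
  have h4 := (tendsto_log_atTop.comp hk).eventually_ge_atTop M
  filter_upwards [h2, h3, h4, eventually_ge_atTop 1] with k h5 h6 h7 h8
  exact ⟨h5, h6, h7, h8⟩

/-- Q2: the parameters for `r ≤ c log ^ 2 k`. -/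
theorem params (C : ℝ) (hC : 1 ≤ C) (ε δ : ℝ) (hε : 0 < ε) (hε1 : ε ≤ 1) (hδ : 0 < δ) :
    ∃ (c : ℝ) (k₀ : ℕ), 0 < c ∧ ∀ k : ℕ, k₀ ≤ k → ∃ (w J m a : ℕ) (ρ : ℝ), 1 ≤ w ∧ w + 1 ≤ J ∧ 0 < ρ ∧ ρ ≤ 1 ∧
      C * (J * 2 ^ w) ≤ m ∧ C * (J + log (C / ρ)) / ρ ≤ m ∧ C ≤ a ∧ C * (a * (a * (w + 1) * m)) ^ 2 ≤ k ∧
      (m : ℝ) ≤ (k : ℝ) ^ δ ∧ (k : ℝ) ^ (1 / 4 - δ) ≤ a ∧
      ∀ r : ℕ, (r : ℝ) ≤ c * log k ^ 2 →
        16 * (r : ℝ) ^ 2 * (w + 1) < J * ((1 - 1 / (w + 1 : ℝ)) ^ r) ^ 2 ∧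
        4 * ρ ≤ ε * (1 - 1 / (w + 1 : ℝ)) ^ r ∧
        8 * (r : ℝ) * (w + 1) ≤ ε * k * ((1 - 1 / (w + 1 : ℝ)) ^ r) ^ 2 ∧
        4 ≤ ε * (1 - 1 / (w + 1 : ℝ)) ^ r * k := by
  set δ₁ := min δ (1 / 8) with hδ₁
  have hδ1 : 0 < δ₁ := lt_min hδ (by norm_num)
  have hδ2 : δ₁ ≤ 1 / 8 := min_le_right _ _
  have hδ3 : δ₁ ≤ δ := min_le_left _ _
  set η := δ₁ / 20 with hη
  have hη0 : 0 < η := by positivity
  have hη1 : η ≤ 1 / 160 := by rw [hη]; linarith
  set K := 1000 * C / ε with hK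
  have hCε : 1 ≤ C / ε := by
    rw [le_div_iff₀ hε]
    linarith
  have hK1 : 1000 ≤ K := by
    have : K = 1000 * (C / ε) := by rw [hK]; ring
    rw [this]
    linarith
  obtain ⟨k₀, hk₀⟩ := eventually_atTop.1 (eventually_large η (1 / 4 - 10 * η) K (2 * C + 2 / η) hη0 (by linarith))
  refine ⟨η ^ 2 / 2, k₀, by positivity, fun k hk => ?_⟩
  obtain ⟨e1, e2, e3, e4⟩ := hk₀ k hk
  have hk1 : (1 : ℝ) ≤ k := by exact_mod_cast e4
  have hk0 : (0 : ℝ) < k := by linarith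
  set L := log k with hL
  set y := (k : ℝ) ^ η with hy
  set q := (k : ℝ) ^ (1 / 4 - 10 * η) with hq
  have h2η : 0 < 2 / η := by positivity
  have hηL : 2 ≤ η * L := by
    have h1 : 2 / η ≤ L := by linarith
    have h2 := (div_le_iff₀ hη0).1 h1
    linarith
  have hL1 : 1 ≤ L := by linarith
  have hL0 : 0 ≤ L := by linarith
  have hηLL : η * L ≤ L := by nlinarith
  have hLp : ∀ n, n ≤ 5 → L ^ n ≤ L ^ 5 := fun n hn => pow_le_pow_right₀ hL1 hn
  have hL5 : 1 ≤ L ^ 5 := one_le_pow₀ hL1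
  have hyK : K ≤ y := by nlinarith
  have hy1 : 1000 ≤ y := by linarith
  have hy0 : 0 < y := by linarith
  have hy5 : 1000 * L ^ 5 ≤ y := by nlinarith
  have hyL : 1000 * L ≤ y := by
    have := hLp 1 (by norm_num)
    rw [pow_one] at this
    linarith
  have hyC : 1000 * (C / ε) ≤ y := by
    refine le_trans (le_of_eq ?_) hyK
    rw [hK]
    ring
  have hyC1 : 1000 * C ≤ y := by
    have h1 : C ≤ C / ε := by
      rw [le_div_iff₀ hε]
      nlinarith
    linarith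
  have hyexp : y = exp (η * L) := by
    rw [hy, rpow_def_of_pos hk0, mul_comm]
  have hypow : ∀ n : ℕ, y ^ n = (k : ℝ) ^ (η * n) := by
    intro n
    rw [hy, ← rpow_natCast, ← rpow_mul hk0.le]
  have hyle : ∀ n m : ℕ, n ≤ m → y ^ n ≤ y ^ m := fun n m h => pow_le_pow_right₀ (by linarith) h
  have hyp : ∀ n : ℕ, 0 < y ^ n := fun n => pow_pos hy0 n
  -- w
  set w := ⌊η * L⌋₊ with hw
  have hw1 : (w : ℝ) ≤ η * L := Nat.floor_le (by linarith)
  have hw2 : η * L / 2 ≤ w := by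
    have := Nat.lt_floor_add_one (η * L)
    rw [← hw] at this
    linarith
  have hw3 : (1 : ℝ) ≤ w := by linarith
  have hw0 : (0 : ℝ) < w := by linarith
  have hw4 : (w + 1 : ℝ) ≤ 2 * L := by linarith
  have h2w : (2 : ℝ) ^ w ≤ y := by
    have h1 : (2 : ℝ) ^ w = exp (w * log 2) := by
      rw [mul_comm, exp_mul, exp_log (by norm_num), rpow_natCast]
    rw [h1, hyexp]
    refine exp_le_exp.2 ?_
    have h2 : log 2 ≤ 1 := by
      have := log_two_lt_d9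
      linarith
    nlinarith
  -- J, m, a, ρ
  set J := ⌈y ^ 4⌉₊ with hJ
  have hJ1 : y ^ 4 ≤ J := Nat.le_ceil _
  have hJ2 : (J : ℝ) ≤ 2 * y ^ 4 := by
    have h1 := Nat.ceil_lt_add_one (hyp 4).le
    have h2 : (1 : ℝ) ≤ y ^ 4 := one_le_pow₀ (by linarith)
    linarith
  set m := ⌈y ^ 8⌉₊ with hm
  have hm1 : y ^ 8 ≤ m := Nat.le_ceil _
  have hm2 : (m : ℝ) ≤ 2 * y ^ 8 := by
    have h1 := Nat.ceil_lt_add_one (hyp 8).le
    have h2 : (1 : ℝ) ≤ y ^ 8 := one_le_pow₀ (by linarith)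
    linarith
  set a := ⌊q⌋₊ with ha
  have hq0 : 0 < q := rpow_pos_of_pos hk0 _
  have hq2 : 2 * C ≤ q := by linarith
  have ha1 : (a : ℝ) ≤ q := Nat.floor_le hq0.le
  have ha2 : q - 1 ≤ a := by
    have := Nat.lt_floor_add_one q
    rw [← ha] at this
    linarith
  have hρ : 0 < ε / 4 * y⁻¹ := by positivity
  refine ⟨w, J, m, a, ε / 4 * y⁻¹, by exact_mod_cast hw3, ?_, hρ, ?_, ?_, ?_, ?_, ?_, ?_, ?_, ?_⟩
  · have h1 : (w + 1 : ℝ) ≤ J := by
      have h2 : y ≤ y ^ 4 := le_self_pow₀ (by linarith) (by norm_num)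
      linarith
    exact_mod_cast h1
  · have h1 : y⁻¹ ≤ 1 := inv_le_one_of_one_le₀ (by linarith)
    have h2 : 0 < y⁻¹ := inv_pos.2 hy0
    nlinarith
  · calc C * ((J : ℝ) * 2 ^ w) ≤ C * (2 * y ^ 4 * y) := by
          refine mul_le_mul_of_nonneg_left ?_ (by linarith)
          exact mul_le_mul hJ2 h2w (by positivity) (by positivity)
      _ = (2 * C) * y ^ 5 := by ring
      _ ≤ y * y ^ 5 := mul_le_mul_of_nonneg_right (by linarith) (hyp 5).le
      _ = y ^ 6 := by ring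
      _ ≤ y ^ 8 := hyle 6 8 (by norm_num)
      _ ≤ m := hm1
  · have h1 : log (C / (ε / 4 * y⁻¹)) = log (4 * (C / ε)) + η * L := by
      have h2 : C / (ε / 4 * y⁻¹) = 4 * (C / ε) * y := by
        field_simp
      rw [h2, log_mul (by positivity) hy0.ne', hyexp, log_exp]
    have h3 : log (4 * (C / ε)) ≤ 4 * (C / ε) := by
      have := log_le_sub_one_of_pos (by positivity : 0 < 4 * (C / ε))
      linarith
    have h4 : (J : ℝ) + log (C / (ε / 4 * y⁻¹)) ≤ 3 * y ^ 4 := by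
      rw [h1]
      have h5 : y ≤ y ^ 4 := le_self_pow₀ (by linarith) (by norm_num)
      linarith
    rw [div_le_iff₀ hρ]
    have h5 : (12 * (C / ε)) * y ^ 5 ≤ y * y ^ 5 := mul_le_mul_of_nonneg_right (by linarith) (hyp 5).le
    have h6 : y ^ 6 ≤ m := (hyle 6 8 (by norm_num)).trans hm1
    have h7 : 12 * (C / ε) * y ^ 5 ≤ m := by
      refine h5.trans (le_trans (le_of_eq ?_) h6)
      ring
    have h8 : C * (3 * y ^ 4) = 12 * (C / ε) * y ^ 5 * (ε / 4 * y⁻¹) := by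
      field_simp
      ring
    calc C * ((J : ℝ) + log (C / (ε / 4 * y⁻¹))) ≤ C * (3 * y ^ 4) := mul_le_mul_of_nonneg_left h4 (by linarith)
      _ = 12 * (C / ε) * y ^ 5 * (ε / 4 * y⁻¹) := h8
      _ ≤ m * (ε / 4 * y⁻¹) := mul_le_mul_of_nonneg_right h7 hρ.le
  · linarith
  · have h1 : (w + 1 : ℝ) * m ≤ y ^ 9 := by
      calc (w + 1 : ℝ) * m ≤ (2 * L) * (2 * y ^ 8) := mul_le_mul hw4 hm2 (by positivity) (by linarith)
        _ = (4 * L) * y ^ 8 := by ring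
        _ ≤ y * y ^ 8 := mul_le_mul_of_nonneg_right (by linarith) (hyp 8).le
        _ = y ^ 9 := by ring
    have h2 : (a : ℝ) * (a * (w + 1) * m) ≤ q ^ 2 * y ^ 9 := by
      calc (a : ℝ) * (a * (w + 1) * m) = a ^ 2 * ((w + 1) * m) := by ring
        _ ≤ q ^ 2 * y ^ 9 := mul_le_mul (pow_le_pow_left₀ (by positivity) ha1 2) h1 (by positivity) (by positivity)
    have h3 : q ^ 4 * y ^ 40 = k := by
      rw [hypow, hq, ← rpow_natCast, ← rpow_mul hk0.le, ← rpow_add hk0]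
      have h4 : (1 / 4 - 10 * η) * ((4 : ℕ) : ℝ) + η * ((40 : ℕ) : ℝ) = 1 := by
        push_cast
        ring
      rw [h4, rpow_one]
    calc C * ((a : ℝ) * (a * (w + 1) * m)) ^ 2 ≤ C * (q ^ 2 * y ^ 9) ^ 2 := by
          refine mul_le_mul_of_nonneg_left ?_ (by linarith)
          exact pow_le_pow_left₀ (by positivity) h2 2
      _ = C * y ^ 18 * q ^ 4 := by ring
      _ ≤ y * y ^ 18 * q ^ 4 := by
          refine mul_le_mul_of_nonneg_right ?_ (by positivity)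
          exact mul_le_mul_of_nonneg_right (by linarith) (hyp 18).le
      _ = q ^ 4 * y ^ 19 := by ring
      _ ≤ q ^ 4 * y ^ 40 := mul_le_mul_of_nonneg_left (hyle 19 40 (by norm_num)) (by positivity)
      _ = k := h3
  · calc (m : ℝ) ≤ 2 * y ^ 8 := hm2
      _ ≤ y * y ^ 8 := mul_le_mul_of_nonneg_right (by linarith) (hyp 8).le
      _ = y ^ 9 := by ring
      _ ≤ y ^ 20 := hyle 9 20 (by norm_num)
      _ = (k : ℝ) ^ δ₁ := by
          rw [hypow]
          congr 1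
          rw [hη]
          push_cast
          ring
      _ ≤ (k : ℝ) ^ δ := rpow_le_rpow_of_exponent_le hk1 hδ3
  · have h1 : (k : ℝ) ^ (1 / 4 - δ) ≤ (k : ℝ) ^ (1 / 4 - δ₁) := rpow_le_rpow_of_exponent_le hk1 (by linarith)
    have h2 : (k : ℝ) ^ (1 / 4 - δ₁) * y ^ 10 = q := by
      rw [hypow, hq, ← rpow_add hk0]
      congr 1
      rw [hη]
      push_cast
      ring
    have h3 : (0 : ℝ) < (k : ℝ) ^ (1 / 4 - δ₁) := rpow_pos_of_pos hk0 _
    have h4 : (2 : ℝ) ≤ y ^ 10 := le_trans (by linarith) (le_self_pow₀ (by linarith : 1 ≤ y) (by norm_num))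
    have h5 : 2 * (k : ℝ) ^ (1 / 4 - δ₁) ≤ q := by
      rw [← h2, mul_comm]
      exact mul_le_mul_of_nonneg_left h4 h3.le
    linarith
  · intro r hr
    have hrL : (r : ℝ) ≤ L ^ 2 := by
      refine hr.trans ?_
      have h1 : η ^ 2 / 2 ≤ 1 := by nlinarith
      have h2 : (0 : ℝ) ≤ L ^ 2 := by positivity
      nlinarith
    have hr0 : (0 : ℝ) ≤ r := Nat.cast_nonneg _
    have hrw : (r : ℝ) / w ≤ η * L := by
      rw [div_le_iff₀ hw0]
      calc (r : ℝ) ≤ η ^ 2 / 2 * L ^ 2 := hr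
        _ = η * L * (η * L / 2) := by ring
        _ ≤ η * L * w := mul_le_mul_of_nonneg_left hw2 (by linarith)
    have hβ : exp (-(1 / (w : ℝ))) ≤ 1 - 1 / (w + 1 : ℝ) := by
      have h1 : 1 + 1 / (w : ℝ) ≤ exp (1 / (w : ℝ)) := by
        have := add_one_le_exp (1 / (w : ℝ))
        linarith
      rw [exp_neg]
      have h2 : (0 : ℝ) < 1 + 1 / (w : ℝ) := by positivity
      calc (exp (1 / (w : ℝ)))⁻¹ ≤ (1 + 1 / (w : ℝ))⁻¹ := inv_anti₀ h2 h1
        _ = 1 - 1 / (w + 1 : ℝ) := by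
            field_simp
            ring
    have hβr : y⁻¹ ≤ (1 - 1 / (w + 1 : ℝ)) ^ r := by
      calc y⁻¹ = exp (-(η * L)) := by rw [exp_neg, ← hyexp]
        _ ≤ exp (-(r / w : ℝ)) := exp_le_exp.2 (by linarith)
        _ = exp (-(1 / (w : ℝ))) ^ r := by
            rw [← exp_nat_mul]
            congr 1
            ring
        _ ≤ (1 - 1 / (w + 1 : ℝ)) ^ r := pow_le_pow_left₀ (exp_pos _).le hβ r
    set b := (1 - 1 / (w + 1 : ℝ)) ^ r with hb
    have hyi : 0 < y⁻¹ := inv_pos.2 hy0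
    have hb2 : (y⁻¹) ^ 2 ≤ b ^ 2 := pow_le_pow_left₀ hyi.le hβr 2
    have hk4 : y ^ 4 ≤ k := by
      rw [hypow]
      calc (k : ℝ) ^ (η * ((4 : ℕ) : ℝ)) ≤ (k : ℝ) ^ (1 : ℝ) := by
            refine rpow_le_rpow_of_exponent_le hk1 ?_
            push_cast
            linarith
        _ = k := rpow_one _
    refine ⟨?_, ?_, ?_, ?_⟩
    · have h1 : 16 * (r : ℝ) ^ 2 * (w + 1) ≤ 32 * L ^ 5 := by
        calc 16 * (r : ℝ) ^ 2 * (w + 1) ≤ 16 * (L ^ 2) ^ 2 * (2 * L) := by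
              refine mul_le_mul ?_ hw4 (by positivity) (by positivity)
              refine mul_le_mul_of_nonneg_left ?_ (by norm_num)
              exact pow_le_pow_left₀ hr0 hrL 2
          _ = 32 * L ^ 5 := by ring
      have h2 : y ^ 2 ≤ J * b ^ 2 := by
        calc y ^ 2 = y ^ 4 * (y⁻¹) ^ 2 := by field_simp
          _ ≤ J * b ^ 2 := mul_le_mul hJ1 hb2 (by positivity) (by positivity)
      have h3 : y ≤ y ^ 2 := le_self_pow₀ (by linarith) (by norm_num)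
      linarith
    · calc 4 * (ε / 4 * y⁻¹) = ε * y⁻¹ := by ring
        _ ≤ ε * b := mul_le_mul_of_nonneg_left hβr hε.le
    · have h1 : 8 * (r : ℝ) * (w + 1) ≤ 16 * L ^ 5 := by
        calc 8 * (r : ℝ) * (w + 1) ≤ 8 * L ^ 2 * (2 * L) :=
              mul_le_mul (mul_le_mul_of_nonneg_left hrL (by norm_num)) hw4 (by positivity) (by positivity)
          _ = 16 * L ^ 3 := by ring
          _ ≤ 16 * L ^ 5 := mul_le_mul_of_nonneg_left (hLp 3 (by norm_num)) (by norm_num)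
      have h2 : ε * y ^ 2 ≤ ε * k * b ^ 2 := by
        calc ε * y ^ 2 = ε * y ^ 4 * (y⁻¹) ^ 2 := by field_simp
          _ ≤ ε * k * b ^ 2 := by
              refine mul_le_mul (mul_le_mul_of_nonneg_left hk4 hε.le) hb2 (by positivity) (by positivity)
      have h3 : 1 ≤ ε * y := by
        have h4 : 1000 * C ≤ ε * y := by
          have h5 := mul_le_mul_of_nonneg_left hyC hε.le
          have h6 : ε * (1000 * (C / ε)) = 1000 * C := by field_simp
          rw [h6] at h5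
          exact h5
        linarith
      have h4 : y ≤ ε * y ^ 2 := by
        calc y = 1 * y := (one_mul y).symm
          _ ≤ ε * y * y := mul_le_mul_of_nonneg_right h3 hy0.le
          _ = ε * y ^ 2 := by ring
      linarith
    · have h1 : ε * y ^ 3 ≤ ε * b * k := by
        calc ε * y ^ 3 = ε * y⁻¹ * y ^ 4 := by field_simp
          _ ≤ ε * b * k := mul_le_mul (mul_le_mul_of_nonneg_left hβr hε.le) hk4 (by positivity)
              (mul_nonneg hε.le (hyi.le.trans hβr))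
      have h3 : 1000 * C ≤ ε * y := by
        have h5 := mul_le_mul_of_nonneg_left hyC hε.le
        have h6 : ε * (1000 * (C / ε)) = 1000 * C := by field_simp
        rw [h6] at h5
        exact h5
      have h4 : ε * y ≤ ε * y ^ 3 :=
        mul_le_mul_of_nonneg_left (le_self_pow₀ (by linarith) (by norm_num)) hε.le
      linarith

end Pool.Agent.Helper6.PQ
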