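import Pool.Agent.Helper6.PQ.Group

/-!
# Rarely read cells: the parts and the groups
-/

namespace Pool.Agent.Helper6.PQ

variable {C : Type}

/-- The number of different cells which a group may query. -/
noncomputable def tr (ρ : ℝ) (k : ℕ) : ℕ := ⌊(1 - ρ) * k⌋₊

theorem tr_le {ρ : ℝ} {k : ℕ} (h : ρ ≤ 1) : (tr ρ k : ℝ) ≤ (1 - ρ) * k :=
  Nat.floor_le (mul_nonneg (by linarith) (Nat.cast_nonneg _))

/-- If `ε k` of the `k` cells are queried at most `r` times each, then the computation can be cut into `J` parts and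
distributed to `w + 1` groups such that each group misses a part `ρ` of the cells. -/
theorem gcut_of_rare [Fintype C] [DecidableEq C] {ε ρ : ℝ} {r w J : ℕ} (hε : 0 < ε) (hw : 1 ≤ w) (hρ : 0 < ρ)
    (h1 : 16 * (r : ℝ) ^ 2 * (w + 1) < J * ((1 - 1 / (w + 1 : ℝ)) ^ r) ^ 2)
    (h2 : 4 * ρ ≤ ε * (1 - 1 / (w + 1 : ℝ)) ^ r)
    (h3 : 8 * (r : ℝ) * (w + 1) ≤ ε * Fintype.card C * ((1 - 1 / (w + 1 : ℝ)) ^ r) ^ 2)
    (h4 : 4 ≤ ε * (1 - 1 / (w + 1 : ℝ)) ^ r * Fintype.card C) (l : List C) (X : Finset C)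
    (hX : ε * Fintype.card C ≤ X.card) (hl : ∀ b ∈ X, l.count b ≤ r) :
    GCut (tr ρ (Fintype.card C)) (w + 1) J l := by
  set k := Fintype.card C with hk
  have hw0 : (1 : ℝ) ≤ w := by exact_mod_cast hw
  have hβ : (0 : ℝ) < 1 - 1 / (w + 1 : ℝ) := by
    rw [sub_pos, div_lt_one (by linarith)]
    linarith
  set β : ℝ := 1 - 1 / (w + 1 : ℝ) with hβ'
  have hβr : 0 < β ^ r := pow_pos hβ r
  have hβ2 : 0 < (β ^ r) ^ 2 := pow_pos hβr 2
  have hX0 : (0 : ℝ) < X.card := by
    refine lt_of_lt_of_le ?_ hX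
    by_contra h
    push Not at h
    have h5 : ε * β ^ r * k = ε * k * β ^ r := by ring
    rw [h5] at h4
    have h6 : ε * k * β ^ r ≤ 0 := mul_nonpos_of_nonpos_of_nonneg h hβr.le
    linarith
  have hk0 : (0 : ℝ) ≤ k := Nat.cast_nonneg _
  -- the last condition
  have hlast : 2 * ((k - tr ρ k : ℕ) : ℝ) ≤ β ^ r * X.card := by
    have h5 : (1 - ρ) * k < tr ρ k + 1 := Nat.lt_floor_add_one _
    have h6 : ((k - tr ρ k : ℕ) : ℝ) ≤ ρ * k + 1 := by
      rcases Nat.le_total k (tr ρ k) with h7 | h7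
      · rw [Nat.sub_eq_zero_of_le h7]
        push_cast
        positivity
      · rw [Nat.cast_sub h7]
        linarith
    have h7 : 4 * ρ * k ≤ ε * β ^ r * k := mul_le_mul_of_nonneg_right h2 hk0
    have h8 : β ^ r * (ε * k) ≤ β ^ r * X.card := mul_le_mul_of_nonneg_left hX hβr.le
    have h9 : β ^ r * (ε * k) = ε * β ^ r * k := by ring
    linarith
  rcases Nat.eq_zero_or_pos r with hr | hr
  · subst hr
    have hJ : 0 < J := by
      by_contra h
      have h5 : J = 0 := by omega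
      rw [h5] at h1
      simp at h1
    refine gcut_of_count (D := 1) l X hl (by omega) ?_ hlast
    simp only [CharP.cast_eq_zero, Nat.cast_zero, zero_mul, mul_zero, pow_zero, one_pow, one_mul]
    exact hX0
  · have hr0 : (1 : ℝ) ≤ r := by exact_mod_cast hr
    set y : ℝ := (β ^ r) ^ 2 * X.card / (8 * r * (w + 1)) with hy
    have hden : (0 : ℝ) < 8 * r * (w + 1) := by positivity
    have hy1 : 1 ≤ y := by
      rw [hy, le_div_iff₀ hden, one_mul]
      refine h3.trans ?_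
      calc ε * k * (β ^ r) ^ 2 ≤ X.card * (β ^ r) ^ 2 := mul_le_mul_of_nonneg_right hX hβ2.le
        _ = _ := by ring
    have hD1 : 1 ≤ ⌊y⌋₊ := by
      rw [Nat.one_le_floor_iff]
      exact hy1
    have hD2 : (⌊y⌋₊ : ℝ) ≤ y := Nat.floor_le (by linarith)
    have hD3 : y < 2 * (⌊y⌋₊ : ℝ) := by
      have h5 := Nat.lt_floor_add_one y
      have h6 : (1 : ℝ) ≤ ⌊y⌋₊ := by exact_mod_cast hD1
      linarith
    have hyX : y * (8 * r * (w + 1)) = (β ^ r) ^ 2 * X.card := by
      rw [hy, div_mul_cancel₀ _ hden.ne']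
    refine gcut_of_count (D := ⌊y⌋₊) l X hl ?_ ?_ hlast
    · have h5 : (r * X.card : ℝ) < J * ⌊y⌋₊ := by
        have hJ0 : (0 : ℝ) < J := by
          by_contra h
          push Not at h
          have h6 : (J : ℝ) * (β ^ r) ^ 2 ≤ 0 := mul_nonpos_of_nonpos_of_nonneg h hβ2.le
          have h7 : (0 : ℝ) ≤ 16 * (r : ℝ) ^ 2 * (w + 1) := by positivity
          linarith
        have h6 : J * y < J * (2 * (⌊y⌋₊ : ℝ)) := mul_lt_mul_of_pos_left hD3 hJ0
        have h7 : 16 * (r : ℝ) ^ 2 * (w + 1) * X.card < J * (β ^ r) ^ 2 * X.card :=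
          mul_lt_mul_of_pos_right h1 hX0
        have h8 : J * (β ^ r) ^ 2 * X.card = J * y * (8 * r * (w + 1)) := by
          rw [mul_assoc, ← hyX]
          ring
        rw [h8] at h7
        have h9 : 2 * (r : ℝ) * X.card * (8 * r * (w + 1)) < J * y * (8 * r * (w + 1)) := by
          refine lt_of_eq_of_lt ?_ h7
          ring
        have h10 := lt_of_mul_lt_mul_right h9 hden.le
        linarith
      exact_mod_cast h5
    · have h5 : 4 * (r * (⌊y⌋₊ : ℝ)) * (w + 1 : ℝ) ≤ 4 * (r * y) * (w + 1) := by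
        have : (r : ℝ) * ⌊y⌋₊ ≤ r * y := mul_le_mul_of_nonneg_left hD2 (by linarith)
        have hw1 : (0 : ℝ) ≤ w + 1 := by linarith
        nlinarith
      have h6 : 4 * (r * y) * (w + 1) = (β ^ r) ^ 2 * X.card / 2 := by
        rw [← hyX]
        ring
      have h7 : 0 < (β ^ r) ^ 2 * X.card := mul_pos hβ2 hX0
      linarith

end Pool.Agent.Helper6.PQ
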