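import Pool.Agent.Helper6.PQ.Main
import Pool.Agent.Helper6.PQ.Rare
import Pool.Agent.Helper6.PQ.Params
import Pool.Agent.Helper70.PQ.Num
import Pool.Agent.Helper96.PH.Final

/-!
# The theorem for up to `c log ^ 2 k` queries
-/

namespace Pool.Agent.Helper6.PQ

open Pool.Agent.Helper19.NF Pool.Agent.Helper74.NW Pool.Agent.Helper74.NE Pool.Agent.Helper96.PH Real
open Pool.Agent.Helper74.NS (Expands)

theorem err_le {C : ℝ} (h : ∀ (k m a w J : ℕ) (ρ : ℝ), 0 < ρ → ρ ≤ 1 → w + 1 ≤ J → C * (J * 2 ^ w) ≤ m →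
    C * (J + log (C / ρ)) / ρ ≤ m → C ≤ a → C * (a * (a * (w + 1) * m)) ^ 2 ≤ k →
      ((a + 1 : ℝ) * ((8 * a * (w + 1) : ℕ) * m)) ^ 2 / k + 2 * 2 ^ (w + 1) / √k +
        a * (8 * a * (w + 1)).choose a * ((15 * m : ℝ) ^ a) ^ 2 * (((2 : ℝ) ^ a) ^ (2 * J)) ^ 2 *
          (2 / (1 + ρ / 2) ^ (a * m)) +
        2 * (((2 : ℝ) ^ a * (w + 1)) ^ J * ((15 * m + 1) ^ (8 * a * (w + 1))) ^ (w + 1)) *
          (k : ℝ) ^ (-((8 * a * (w + 1) - (w + 1) * a : ℕ) * m : ℝ) / 2 ^ (w + 2)) ≤ 1 / 100)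
    {k m a w J S : ℕ} {ρ : ℝ} (B : Type) [Fintype B] (hk : Fintype.card B = k) (h1 : 0 < ρ) (h2 : ρ ≤ 1)
    (h3 : w + 1 ≤ J) (h4 : C * (J * 2 ^ w) ≤ m) (h5 : C * (J + log (C / ρ)) / ρ ≤ m) (h6 : C ≤ a)
    (h7 : C * (a * (a * (w + 1) * m)) ^ 2 ≤ k) (hS : S ≤ 2 ^ a) :
    err B (ZMod 2) (8 * a * (w + 1)) 15 m a a w J S ρ ≤ 1 / 100 := by
  refine le_trans ?_ (h k m a w J ρ h1 h2 h3 h4 h5 h6 h7)
  have hS' : (S : ℝ) ≤ 2 ^ a := by exact_mod_cast hS
  unfold err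
  rw [Nat.card_eq_fintype_card, hk, Nat.card_eq_fintype_card, ZMod.card]
  refine add_le_add (add_le_add (add_le_add ?_ ?_) ?_) ?_
  · refine le_of_eq ?_
    push_cast
    ring
  · refine le_of_eq ?_
    push_cast
    ring
  · push_cast
    refine mul_le_mul_of_nonneg_right ?_ (by positivity)
    refine mul_le_mul_of_nonneg_left ?_ (by positivity)
    exact pow_le_pow_left₀ (by positivity) (pow_le_pow_left₀ (by positivity) hS' _) 2
  · refine mul_le_mul_of_nonneg_right ?_ (by positivity)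
    push_cast
    refine mul_le_mul_of_nonneg_left ?_ (by norm_num)
    refine mul_le_mul_of_nonneg_right ?_ (by positivity)
    refine pow_le_pow_left₀ (by positivity) ?_ _
    exact mul_le_mul_of_nonneg_right hS' (by positivity)

/-- The theorem. -/
theorem main (ε δ : ℝ) (hε : 0 < ε) (hε1 : ε ≤ 1) (hδ : 0 < δ) : ∃ (c : ℝ) (k₀ : ℕ), 0 < c ∧ ∀ k : ℕ, k₀ ≤ k →
    ∃ (m a w : ℕ) (_ : NeZero m), (m : ℝ) ≤ (k : ℝ) ^ δ ∧ (k : ℝ) ^ (1 / 4 - δ) ≤ a ∧
      ∃ g : Fin 15 → Equiv.Perm (Fin (8 * a * (w + 1))),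
      ∀ (B : Type) [AddCommGroup B] [Fintype B] [DecidableEq B] (x0 : Fin (8 * a * (w + 1)) × Fin m → B),
      Function.Injective x0 → Fintype.card B = k →
        -- nondeterministic programs which are never wrong
        (∀ (r S : ℕ) (P : NProg B ((Fin 15 × Fin m → B) × ZMod 2) (ZMod 2) S), (r : ℝ) ≤ c * log k ^ 2 → S ≤ 2 ^ a →
          (∀ J l z, P.Ends J l z → z = out g x0 a J) →
          100 * Nat.card {J : B → (Fin 15 × Fin m → B) × ZMod 2 // (∃ l z, P.Ends J l z) ∧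
              ∀ l z, P.Shortest J l z → ∃ X : Finset B, ε * k ≤ X.card ∧ ∀ b ∈ X, l.count b ≤ r} ≤
            Nat.card (B → (Fin 15 × Fin m → B) × ZMod 2)) ∧
        -- nondeterministic pushdown programs which are never wrong
        (∀ (r : ℕ) (Q Γ : Type) [Fintype Q] (b : ℕ) (P : NPProg B ((Fin 15 × Fin m → B) × ZMod 2) (ZMod 2) Q Γ),
          (r : ℝ) ≤ c * log k ^ 2 →
          (2 * Fintype.card Q ^ 2 + 2) ^ (b + 2) ≤ 2 ^ a → (∀ J l n z, P.Ends J l n z → z = out g x0 a J) →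
          100 * Nat.card {J : B → (Fin 15 × Fin m → B) × ZMod 2 // (∃ l n z, P.Ends J l n z ∧ n ≤ 2 ^ b) ∧
              ∀ l n z, P.Ends J l n z → ∃ X : Finset B, ε * k ≤ X.card ∧ ∀ c ∈ X, l.count c ≤ r} ≤
            Nat.card (B → (Fin 15 × Fin m → B) × ZMod 2)) ∧
        -- the pushdown program
        (∃ (Q Γ : Type) (_ : Finite Q) (_ : Finite Γ) (P : PProg B ((Fin 15 × Fin m → B) × ZMod 2) (ZMod 2) Q Γ),
          Nat.card Q ≤ k ^ 3 ∧ Nat.card Γ ≤ k ^ 3 ∧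
          ∀ J, P.Outputs J (out g x0 a J) ∧ Nat.card {b // P.Asks J b} ^ 2 ≤ k) ∧
        -- the program without store
        ∃ (S : ℕ) (P : NProg B ((Fin 15 × Fin m → B) × ZMod 2) (ZMod 2) S),
          S ≤ k ^ (40 * a * (w + 1) * m) ∧ Det P ∧
          ∀ J, (∃ l, P.Ends J l (out g x0 a J)) ∧
            ∀ l z, P.Ends J l z → z = out g x0 a J ∧ l.length ^ 2 ≤ k := by
  classical
  obtain ⟨C₀, hC₀, hnum⟩ := Pool.Agent.Helper70.PQ.numbers
  obtain ⟨c, k₀, hc, hpar⟩ := params (1000 * C₀) (by linarith) (ε / 2) δ (by linarith) (by linarith) hδ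
  refine ⟨c, k₀, hc, fun k hk => ?_⟩
  obtain ⟨w, J, m, a, ρ, hw, hwJ, hρ0, hρ1, hm1, hm2, ha, hk1, hmk, hak, hr⟩ := hpar k hk
  have hJ1 : (1 : ℝ) ≤ J := by
    have : 1 ≤ J := by omega
    exact_mod_cast this
  have h2w : (1 : ℝ) ≤ 2 ^ w := one_le_pow₀ (by norm_num)
  have hJw : (1 : ℝ) ≤ J * 2 ^ w := by nlinarith
  have hCm : C₀ * (J * 2 ^ w) ≤ m := by
    refine le_trans ?_ hm1
    refine mul_le_mul_of_nonneg_right ?_ (by positivity)
    linarith
  have hm1000 : (1000 : ℝ) ≤ m := by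
    refine le_trans ?_ hm1
    nlinarith
  have hCm2 : C₀ * (J + log (C₀ / ρ)) / ρ ≤ m := by
    refine le_trans ?_ hm2
    refine div_le_div_of_nonneg_right ?_ hρ0.le
    have h3 : log (C₀ / ρ) ≤ log (1000 * C₀ / ρ) := by
      refine log_le_log (by positivity) ?_
      refine div_le_div_of_nonneg_right ?_ hρ0.le
      linarith
    have h4 : 0 ≤ log (C₀ / ρ) := by
      refine log_nonneg ?_
      rw [le_div_iff₀ hρ0]
      linarith
    have h5 : (J : ℝ) + log (C₀ / ρ) ≤ J + log (1000 * C₀ / ρ) := by linarith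
    have h6 : 0 ≤ (J : ℝ) + log (1000 * C₀ / ρ) := by linarith
    calc C₀ * (J + log (C₀ / ρ)) ≤ C₀ * (J + log (1000 * C₀ / ρ)) := mul_le_mul_of_nonneg_left h5 (by linarith)
      _ ≤ 1000 * C₀ * (J + log (1000 * C₀ / ρ)) := mul_le_mul_of_nonneg_right (by linarith) h6
  have ha1 : (1000 : ℝ) ≤ a := by linarith
  have ha2 : 1 ≤ a := by
    have : 1000 ≤ a := by exact_mod_cast ha1
    omega
  have hm0 : 1 ≤ m := by
    have : 1000 ≤ m := by exact_mod_cast hm1000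
    omega
  have : NeZero m := ⟨by omega⟩
  refine ⟨m, a, w, this, hmk, hak, ?_⟩
  obtain ⟨g, hg⟩ := Pool.Agent.Helper84.PH.exists_perms a (w + 1) ha2 (by omega)
  refine ⟨g, fun B _ _ _ x0 hx0 hkB => ?_⟩
  have hk1' : 1000 * (a ^ 2 * (w + 1) * m : ℝ) ^ 2 ≤ k := by
    have h2 : (a * (a * (w + 1) * m) : ℝ) ^ 2 = (a ^ 2 * (w + 1) * m : ℝ) ^ 2 := by ring
    rw [h2] at hk1
    refine le_trans ?_ hk1
    refine mul_le_mul_of_nonneg_right ?_ (by positivity)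
    linarith
  have hk2 : C₀ * (a * (a * (w + 1) * m)) ^ 2 ≤ k := by
    refine le_trans ?_ hk1
    refine mul_le_mul_of_nonneg_right ?_ (by positivity)
    linarith
  obtain ⟨u1, u2, u3, u4, u5, u6⟩ := upper ha1 hm1000 hk1'
  have hn : (w + 1) * a ≤ 8 * a * (w + 1) := by
    calc (w + 1) * a = 1 * (a * (w + 1)) := by ring
      _ ≤ 8 * (a * (w + 1)) := Nat.mul_le_mul_right _ (by norm_num)
      _ = 8 * a * (w + 1) := by ring
  have hβ : ∀ r : ℕ, (0 : ℝ) < (1 - 1 / (w + 1 : ℝ)) ^ r ∧ (1 - 1 / (w + 1 : ℝ)) ^ r ≤ 1 := by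
    intro r
    have h2 : (0 : ℝ) < w + 1 := by positivity
    have h3 : (1 : ℝ) ≤ w := by exact_mod_cast hw
    have h4 : 1 / (w + 1 : ℝ) < 1 := by
      rw [div_lt_one h2]
      linarith
    have h5 : 0 < 1 / (w + 1 : ℝ) := by positivity
    exact ⟨pow_pos (by linarith) r, pow_le_one₀ (by linarith) (by linarith)⟩
  -- rarely read cells
  have hrare : ∀ (r : ℕ) (l : List B) (X : Finset B), (r : ℝ) ≤ c * log k ^ 2 → ε * k ≤ X.card + 1 →
      (∀ b ∈ X, l.count b ≤ r) → GCut (tr ρ k) (w + 1) J l := by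
    intro r l X hrc hX hl
    obtain ⟨r1, r2, r3, r4⟩ := hr r hrc
    obtain ⟨hb0, hb1⟩ := hβ r
    have h5 : ε / 2 * k ≤ X.card := by
      have h6 : ε / 2 * (1 - 1 / (w + 1 : ℝ)) ^ r * k ≤ ε / 2 * 1 * k := by
        refine mul_le_mul_of_nonneg_right ?_ (Nat.cast_nonneg _)
        exact mul_le_mul_of_nonneg_left hb1 (by linarith)
      linarith
    have h6 := gcut_of_rare (C := B) (by linarith : 0 < ε / 2) hw hρ0 r1 r2 (by rw [hkB]; exact r3)
      (by rw [hkB]; exact r4) l X (by rw [hkB]; exact h5) hl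
    rw [hkB] at h6
    exact h6
  have hT : (tr ρ k : ℝ) ≤ (1 - ρ) * Nat.card B := by
    rw [Nat.card_eq_fintype_card, hkB]
    exact tr_le hρ1
  -- programs whose computations can be cut
  have hN : ∀ (S : ℕ) (P : NProg B ((Fin 15 × Fin m → B) × ZMod 2) (ZMod 2) S), S ≤ 2 ^ a →
      (∀ J l z, P.Ends J l z → z = out g x0 a J) →
      100 * Nat.card {I : B → (Fin 15 × Fin m → B) × ZMod 2 // (∃ l z, P.Ends I l z) ∧
          ∀ l z, P.Shortest I l z → GCut (tr ρ k) (w + 1) J l} ≤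
        Nat.card (B → (Fin 15 × Fin m → B) × ZMod 2) := by
    intro S P hS hP
    have h2 := sound_main (by rw [ZMod.card]) P g x0 hx0 (T := tr ρ k) (w := w) (J := J) hρ0.le hT ha2 hg hS hn hP
    have h3 := err_le hnum B hkB hρ0 hρ1 hwJ hCm hCm2 (by linarith) hk2 hS
    have h4 : (0 : ℝ) ≤ Nat.card (B → (Fin 15 × Fin m → B) × ZMod 2) := Nat.cast_nonneg _
    have h5 := h2.trans (mul_le_mul_of_nonneg_right h3 h4)
    have h7 : (100 : ℝ) * Nat.card {I : B → (Fin 15 × Fin m → B) × ZMod 2 // (∃ l z, P.Ends I l z) ∧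
        ∀ l z, P.Shortest I l z → GCut (tr ρ k) (w + 1) J l} ≤
        Nat.card (B → (Fin 15 × Fin m → B) × ZMod 2) := by linarith
    exact_mod_cast h7
  refine ⟨?_, ?_, ?_, ?_⟩
  · intro r S P hrc hS hP
    refine le_trans (Nat.mul_le_mul_left _ ?_) (hN S P hS hP)
    refine Nat.card_le_card_of_injective (fun I => ⟨I.1, I.2.1, fun l z h => ?_⟩) ?_
    · obtain ⟨X, hX, hl⟩ := I.2.2 l z h
      exact hrare r l X hrc (by linarith) hl
    · intro I I' h
      exact Subtype.ext (congrArg (fun z => z.1) h)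
  · intro r Q Γ _ b P hrc hQ hP
    obtain ⟨S, hS, P', hsim⟩ := Pool.Agent.Helper1.NW.sim P (0 : B) b
    refine le_trans (Nat.mul_le_mul_left _ ?_) (hN S P' (hS.trans hQ) fun J l z hl => ?_)
    · refine Nat.card_le_card_of_injective (fun J => ⟨J.1, ?_, ?_⟩) ?_
      · obtain ⟨l, n, z, hl, hn'⟩ := J.2.1
        obtain ⟨l', hl', -⟩ := (hsim J.1).1 l n z hl hn'
        exact ⟨_, z, hl'⟩
      · intro l' z hl'
        obtain ⟨l, n, hl, hperm⟩ := (hsim J.1).2 l' z hl'.1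
        obtain ⟨X, hX, hX2⟩ := J.2.2 l n z hl
        refine hrare r l' (X.erase 0) hrc ?_ fun c hc => ?_
        · refine hX.trans ?_
          have h2 : X.card ≤ (X.erase 0).card + 1 := by
            have := Finset.pred_card_le_card_erase (s := X) (a := (0 : B))
            omega
          exact_mod_cast h2
        · rw [hperm.count_eq, List.count_cons_of_ne (Finset.ne_of_mem_erase hc).symm]
          exact hX2 c (Finset.mem_of_mem_erase hc)
      · intro J J' h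
        exact Subtype.ext (congrArg (fun z => z.1) h)
    · obtain ⟨l', n, hl', -⟩ := (hsim J).2 l z hl
      exact hP J l' n z hl'
  · obtain ⟨Q, Γ, hQ, hΓ, P, h2, h3, h4⟩ := Pool.Agent.Helper60.PH.pushdown_program (G := ZMod 2) g x0 a
      (by norm_num) (Nat.one_le_iff_ne_zero.mpr (by positivity))
    rw [ZMod.card, hkB] at h2 h3
    refine ⟨Q, Γ, hQ, hΓ, P, h2.trans u1, h3.trans u2, fun J => ⟨(h4 J).1, ?_⟩⟩
    exact (Nat.pow_le_pow_left (h4 J).2 2).trans u3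
  · obtain ⟨S, P, h2, h3, h4⟩ := Pool.Agent.Helper84.PH.row_program (G := ZMod 2) g x0 a
      (by rw [ZMod.card, hkB]; omega) (by rw [hkB]; exact u4)
    rw [hkB] at h2
    refine ⟨S, P, h2.trans u5, h3, fun J => ⟨(h4 J).1, fun l z hl => ⟨(h4 J).2.1 l z hl, ?_⟩⟩⟩
    exact (Nat.pow_le_pow_left ((h4 J).2.2 l z hl) 2).trans u3

end Pool.Agent.Helper6.PQ
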