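import Mathlib

/-!
# Frame for the numbers of PH2 (only for the work, not for the graded result)
-/

namespace Pool.Agent.Helper6.PQ.Frame

open Real

/-- Q1: the four terms of `Pool.Agent.Helper6.PQ.err` with `n = 8 a (w + 1)`, `d = 15`, `R = a`, `S = 2 ^ a`,
`|G| = 2`. -/
theorem numbers : ∃ C : ℝ, 1 ≤ C ∧ ∀ (k m a w J : ℕ) (ρ : ℝ), 0 < ρ → ρ ≤ 1 → w + 1 ≤ J → C * (J * 2 ^ w) ≤ m →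
    C * (J + log (C / ρ)) / ρ ≤ m → C ≤ a → C * (a * (a * (w + 1) * m)) ^ 2 ≤ k →
      ((a + 1 : ℝ) * ((8 * a * (w + 1) : ℕ) * m)) ^ 2 / k + 2 * 2 ^ (w + 1) / √k +
        a * (8 * a * (w + 1)).choose a * ((15 * m : ℝ) ^ a) ^ 2 * (((2 : ℝ) ^ a) ^ (2 * J)) ^ 2 *
          (2 / (1 + ρ / 2) ^ (a * m)) +
        2 * (((2 : ℝ) ^ a * (w + 1)) ^ J * ((15 * m + 1) ^ (8 * a * (w + 1))) ^ (w + 1)) *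
          (k : ℝ) ^ (-((8 * a * (w + 1) - (w + 1) * a : ℕ) * m : ℝ) / 2 ^ (w + 2)) ≤ 1 / 100 := sorry

/-- Q2: the parameters for `r ≤ c log ^ 2 k`. -/
theorem params (C : ℝ) (hC : 1 ≤ C) (ε δ : ℝ) (hε : 0 < ε) (hε1 : ε ≤ 1) (hδ : 0 < δ) :
    ∃ (c : ℝ) (k₀ : ℕ), 0 < c ∧ ∀ k : ℕ, k₀ ≤ k → ∃ (w J m a : ℕ) (ρ : ℝ), 1 ≤ w ∧ w + 1 ≤ J ∧ 0 < ρ ∧ ρ ≤ 1 ∧
      C * (J * 2 ^ w) ≤ m ∧ C * (J + log (C / ρ)) / ρ ≤ m ∧ C ≤ a ∧ C * (a * (a * (w + 1) * m)) ^ 2 ≤ k ∧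
      (m : ℝ) ≤ (k : ℝ) ^ δ ∧ (k : ℝ) ^ (1 / 4 - δ) ≤ a ∧
      ∀ r : ℕ, (r : ℝ) ≤ c * log k ^ 2 →
        16 * (r : ℝ) ^ 2 * (w + 1) < J * ((1 - 1 / (w + 1 : ℝ)) ^ r) ^ 2 ∧
        4 * ρ ≤ ε * (1 - 1 / (w + 1 : ℝ)) ^ r ∧
        8 * (r : ℝ) * (w + 1) ≤ ε * k * ((1 - 1 / (w + 1 : ℝ)) ^ r) ^ 2 ∧
        4 ≤ ε * (1 - 1 / (w + 1 : ℝ)) ^ r * k := sorry

end Pool.Agent.Helper6.PQ.Frame
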