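import Pool.Agent.Helper6.PQ.Sum

/-!
# Distributing the parts of a computation to groups
-/

namespace Pool.Agent.Helper6.PQ

variable {C : Type} [DecidableEq C]

/-- Cutting a list into parts with few elements in `X`. -/
theorem exists_parts (X : Finset C) (D : ℕ) : (J : ℕ) → (l : List C) → l.countP (· ∈ X) < J * D →
    ∃ x : Fin J → List C, (List.ofFn x).flatten = l ∧ ∀ j, (x j).countP (· ∈ X) ≤ D
  | 0, l, h => by omega
  | J + 1, l, h => by
    -- the longest initial part
    have key : ∀ (l : List C) (s : ℕ), s ≤ D → ∃ p l', l = p ++ l' ∧ s + p.countP (· ∈ X) ≤ D ∧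
        (l' = [] ∨ s + p.countP (· ∈ X) = D) := by
      intro l
      induction l with
      | nil => exact fun s hs => ⟨[], [], rfl, by simpa using hs, Or.inl rfl⟩
      | cons c l ih =>
        intro s hs
        by_cases hc : c ∈ X
        · rcases Nat.lt_or_ge s D with h1 | h1
          · obtain ⟨p, l', h2, h3, h4⟩ := ih (s + 1) h1
            have h5 : (c :: p).countP (· ∈ X) = p.countP (· ∈ X) + 1 := by
              rw [List.countP_cons_of_pos (by simpa using hc)]
            refine ⟨c :: p, l', by rw [h2]; rfl, by rw [h5]; omega, ?_⟩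
            rcases h4 with h4 | h4
            · exact Or.inl h4
            · exact Or.inr (by rw [h5]; omega)
          · exact ⟨[], c :: l, rfl, by simpa using hs, Or.inr (by simp; omega)⟩
        · obtain ⟨p, l', h2, h3, h4⟩ := ih s hs
          have h5 : (c :: p).countP (· ∈ X) = p.countP (· ∈ X) := by
            rw [List.countP_cons_of_neg (by simpa using hc)]
          refine ⟨c :: p, l', by rw [h2]; rfl, by rw [h5]; exact h3, ?_⟩
          rw [h5]
          exact h4
    obtain ⟨p, l', h1, h2, h3⟩ := key l 0 (Nat.zero_le D)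
    rw [Nat.zero_add] at h2 h3
    have h4 : l.countP (· ∈ X) = p.countP (· ∈ X) + l'.countP (· ∈ X) := by
      rw [h1, List.countP_append]
    by_cases h5 : l' = []
    · refine ⟨Fin.cons p fun _ => [], ?_, fun j => ?_⟩
      · rw [List.ofFn_succ]
        simp [h1, h5]
      · refine Fin.cases ?_ (fun j => ?_) j
        · rw [Fin.cons_zero]
          exact h2
        · rw [Fin.cons_succ]
          simp
    · have h6 : p.countP (· ∈ X) = D := h3.resolve_left h5
      rw [Nat.succ_mul] at h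
      obtain ⟨x, h7, h8⟩ := exists_parts X D J l' (by omega)
      refine ⟨Fin.cons p x, ?_, fun j => ?_⟩
      · rw [List.ofFn_succ]
        simp [h1, h7]
      · refine Fin.cases ?_ (fun j => ?_) j
        · rw [Fin.cons_zero]
          exact h2
        · rw [Fin.cons_succ]
          exact h8 j

variable {J Q : ℕ}

/-- The functions which avoid the value `q` on the set `A`. -/
theorem card_avoid (A : Finset (Fin J)) (q : Fin Q) :
    (Finset.univ.filter fun π : Fin J → Fin Q => ∀ j ∈ A, π j ≠ q).card = (Q - 1) ^ A.card * Q ^ (J - A.card) := by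
  have h1 : (Finset.univ.filter fun π : Fin J → Fin Q => ∀ j ∈ A, π j ≠ q) =
      Fintype.piFinset (fun j => if j ∈ A then Finset.univ.erase q else Finset.univ) := by
    ext π
    simp only [Finset.mem_filter, Finset.mem_univ, true_and, Fintype.mem_piFinset]
    refine ⟨fun h j => ?_, fun h j hj => ?_⟩
    · by_cases hj : j ∈ A
      · rw [if_pos hj]
        exact Finset.mem_erase.2 ⟨h j hj, Finset.mem_univ _⟩
      · rw [if_neg hj]
        exact Finset.mem_univ _
    · have h2 := h j
      rw [if_pos hj] at h2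
      exact (Finset.mem_erase.1 h2).1
  rw [h1, Fintype.card_piFinset]
  have h2 : ∀ j : Fin J, (if j ∈ A then Finset.univ.erase q else Finset.univ).card = if j ∈ A then Q - 1 else Q := by
    intro j
    by_cases hj : j ∈ A
    · rw [if_pos hj, if_pos hj, Finset.card_erase_of_mem (Finset.mem_univ q), Finset.card_univ, Fintype.card_fin]
    · rw [if_neg hj, if_neg hj, Finset.card_univ, Fintype.card_fin]
  simp only [h2]
  rw [Finset.prod_ite, Finset.prod_const, Finset.prod_const]
  congr 2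
  · congr 1
    ext j
    simp
  · have h3 : (Finset.univ.filter fun j => j ∉ A) = Aᶜ := by
      ext j
      simp
    rw [h3, Finset.card_compl, Fintype.card_fin]

/-- The same, as a real number. -/
theorem card_avoid' (hQ : 1 ≤ Q) (A : Finset (Fin J)) (q : Fin Q) :
    ((Finset.univ.filter fun π : Fin J → Fin Q => ∀ j ∈ A, π j ≠ q).card : ℝ) =
      (Q : ℝ) ^ J * (1 - 1 / Q) ^ A.card := by
  have hA : A.card ≤ J := by
    have := Finset.card_le_univ A
    rwa [Fintype.card_fin] at this
  have hQ' : (Q : ℝ) ≠ 0 := by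
    have : (0 : ℝ) < Q := by exact_mod_cast hQ
    exact this.ne'
  rw [card_avoid]
  push_cast [Nat.cast_sub hQ]
  have h1 : (Q : ℝ) ^ J = Q ^ A.card * Q ^ (J - A.card) := by
    rw [← pow_add]
    congr 1
    omega
  rw [h1]
  have h2 : ((Q : ℝ) - 1) ^ A.card = Q ^ A.card * (1 - 1 / Q) ^ A.card := by
    rw [← mul_pow]
    congr 1
    field_simp
  rw [h2]
  ring

open Classical in
/-- Second moment: for most functions `π` the number of the elements of `X` avoided by the group `q` is at least half of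
its mean. -/
theorem few_bad (hQ : 1 ≤ Q) (X : Finset C) (A : C → Finset (Fin J)) (q : Fin Q) {r D : ℕ}
    (hr : ∀ c ∈ X, (A c).card ≤ r) (hD : ∀ c ∈ X, (X.filter fun c' => ¬ Disjoint (A c) (A c')).card ≤ r * D) :
    ((Finset.univ.filter fun π : Fin J → Fin Q =>
      2 * ((X.filter fun c => ∀ j ∈ A c, π j ≠ q).card : ℝ) < (1 - 1 / Q) ^ r * X.card).card : ℝ) *
        ((1 - 1 / Q) ^ r) ^ 2 * X.card ≤ 4 * (r * D) * (Q : ℝ) ^ J := by
  have hQ0 : (0 : ℝ) < Q := by exact_mod_cast hQ
  have hQ1 : (1 : ℝ) ≤ Q := by exact_mod_cast hQ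
  set β : ℝ := 1 - 1 / Q with hβ
  have hβ0 : 0 ≤ β := by
    rw [hβ, sub_nonneg, div_le_one hQ0]
    exact hQ1
  have hβ1 : β ≤ 1 := by
    rw [hβ]
    have : 0 ≤ 1 / (Q : ℝ) := by positivity
    linarith
  rcases Finset.eq_empty_or_nonempty X with hX | hX
  · subst hX
    simp
    positivity
  have hX0 : (0 : ℝ) < X.card := by exact_mod_cast hX.card_pos
  let f : C → (Fin J → Fin Q) → ℝ := fun c π => if ∀ j ∈ A c, π j ≠ q then 1 else 0
  let p : C → ℝ := fun c => β ^ (A c).card
  have hf : ∀ π, ((X.filter fun c => ∀ j ∈ A c, π j ≠ q).card : ℝ) = ∑ c ∈ X, f c π := by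
    intro π
    rw [Finset.card_filter]
    push_cast
    rfl
  have hp : ∀ c ∈ X, β ^ r ≤ p c := fun c hc => pow_le_pow_of_le_one hβ0 hβ1 (hr c hc)
  have hsum : ∀ c, ∑ π, f c π = (Q : ℝ) ^ J * p c := by
    intro c
    show ∑ π : Fin J → Fin Q, (if ∀ j ∈ A c, π j ≠ q then (1 : ℝ) else 0) = _
    rw [Finset.sum_boole, card_avoid' hQ]
  have hsum2 : ∀ c c', ∑ π, f c π * f c' π = (Q : ℝ) ^ J * β ^ (A c ∪ A c').card := by
    intro c c'
    have h1 : ∀ π : Fin J → Fin Q, f c π * f c' π = if ∀ j ∈ A c ∪ A c', π j ≠ q then (1 : ℝ) else 0 := by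
      intro π
      show (if ∀ j ∈ A c, π j ≠ q then (1 : ℝ) else 0) * (if ∀ j ∈ A c', π j ≠ q then (1 : ℝ) else 0) = _
      by_cases h2 : ∀ j ∈ A c, π j ≠ q
      · by_cases h3 : ∀ j ∈ A c', π j ≠ q
        · rw [if_pos h2, if_pos h3, if_pos, one_mul]
          intro j hj
          rcases Finset.mem_union.1 hj with hj | hj
          · exact h2 j hj
          · exact h3 j hj
        · rw [if_neg h3, mul_zero, if_neg]
          exact fun h => h3 fun j hj => h j (Finset.mem_union_right _ hj)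
      · rw [if_neg h2, zero_mul, if_neg]
        exact fun h => h2 fun j hj => h j (Finset.mem_union_left _ hj)
    simp only [h1]
    rw [Finset.sum_boole, card_avoid' hQ]
  -- the second moment
  have hvar : ∑ π, (∑ c ∈ X, f c π - ∑ c ∈ X, p c) ^ 2 ≤ (Q : ℝ) ^ J * (X.card * (r * D)) := by
    have h1 : ∀ π, (∑ c ∈ X, f c π - ∑ c ∈ X, p c) ^ 2 =
        ∑ c ∈ X, ∑ c' ∈ X, (f c π * f c' π - p c' * f c π - p c * f c' π + p c * p c') := by
      intro π
      rw [← Finset.sum_sub_distrib, pow_two, Finset.sum_mul_sum]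
      refine Finset.sum_congr rfl fun c _ => Finset.sum_congr rfl fun c' _ => ?_
      ring
    simp only [h1]
    rw [Finset.sum_comm]
    have h2 : ∀ c ∈ X, ∑ π, ∑ c' ∈ X, (f c π * f c' π - p c' * f c π - p c * f c' π + p c * p c') ≤
        (Q : ℝ) ^ J * (r * D) := by
      intro c hc
      rw [Finset.sum_comm]
      have h3 : ∀ c' ∈ X, ∑ π : Fin J → Fin Q, (f c π * f c' π - p c' * f c π - p c * f c' π + p c * p c') ≤
          if ¬ Disjoint (A c) (A c') then (Q : ℝ) ^ J else 0 := by
        intro c' _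
        rw [Finset.sum_add_distrib, Finset.sum_sub_distrib, Finset.sum_sub_distrib, ← Finset.mul_sum, ← Finset.mul_sum,
          hsum, hsum, hsum2, Finset.sum_const, Finset.card_univ, Fintype.card_fun, Fintype.card_fin, Fintype.card_fin,
          nsmul_eq_mul]
        push_cast
        have hQJ : (0 : ℝ) ≤ (Q : ℝ) ^ J := by positivity
        by_cases h4 : Disjoint (A c) (A c')
        · rw [if_neg (not_not.2 h4), Finset.card_union_of_disjoint h4, pow_add]
          show (Q : ℝ) ^ J * (β ^ (A c).card * β ^ (A c').card) - β ^ (A c').card * ((Q : ℝ) ^ J * β ^ (A c).card) -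
            β ^ (A c).card * ((Q : ℝ) ^ J * β ^ (A c').card) + (Q : ℝ) ^ J * (β ^ (A c).card * β ^ (A c').card) ≤ 0
          apply le_of_eq
          ring
        · rw [if_pos h4]
          have h5 : β ^ (A c ∪ A c').card ≤ 1 := pow_le_one₀ hβ0 hβ1
          have h6 : 0 ≤ p c * p c' := mul_nonneg (pow_nonneg hβ0 _) (pow_nonneg hβ0 _)
          have h7 : (Q : ℝ) ^ J * β ^ (A c ∪ A c').card ≤ (Q : ℝ) ^ J * 1 := mul_le_mul_of_nonneg_left h5 hQJ
          have h8 : 0 ≤ (Q : ℝ) ^ J * (p c * p c') := mul_nonneg hQJ h6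
          nlinarith
      refine (Finset.sum_le_sum h3).trans ?_
      rw [Finset.sum_ite, Finset.sum_const_zero, add_zero, Finset.sum_const, nsmul_eq_mul, mul_comm]
      refine mul_le_mul_of_nonneg_left ?_ (by positivity)
      exact_mod_cast hD c hc
    refine (Finset.sum_le_sum h2).trans (le_of_eq ?_)
    rw [Finset.sum_const, nsmul_eq_mul]
    ring
  -- Chebyshev
  set E := Finset.univ.filter fun π : Fin J → Fin Q =>
      2 * ((X.filter fun c => ∀ j ∈ A c, π j ≠ q).card : ℝ) < β ^ r * X.card with hE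
  have hcheb : (E.card : ℝ) * (β ^ r * X.card / 2) ^ 2 ≤ (Q : ℝ) ^ J * (X.card * (r * D)) := by
    refine le_trans ?_ hvar
    rw [← nsmul_eq_mul, ← Finset.sum_const]
    refine (Finset.sum_le_sum fun π hπ => ?_).trans
      (Finset.sum_le_sum_of_subset_of_nonneg (Finset.subset_univ E) fun π _ _ => sq_nonneg _)
    have h1 : 2 * ((X.filter fun c => ∀ j ∈ A c, π j ≠ q).card : ℝ) < β ^ r * X.card := (Finset.mem_filter.1 hπ).2
    rw [hf] at h1
    have h2 : β ^ r * X.card ≤ ∑ c ∈ X, p c := by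
      calc β ^ r * X.card = ∑ _c ∈ X, β ^ r := by rw [Finset.sum_const, nsmul_eq_mul, mul_comm]
        _ ≤ _ := Finset.sum_le_sum hp
    have h3 : 0 ≤ β ^ r * X.card := mul_nonneg (pow_nonneg hβ0 _) hX0.le
    have h4 : β ^ r * X.card / 2 ≤ ∑ c ∈ X, p c - ∑ c ∈ X, f c π := by linarith
    have h5 : (β ^ r * X.card / 2) ^ 2 ≤ (∑ c ∈ X, p c - ∑ c ∈ X, f c π) ^ 2 :=
      pow_le_pow_left₀ (by linarith) h4 2
    calc _ ≤ _ := h5
      _ = _ := by ring
  have h1 : (E.card : ℝ) * (β ^ r) ^ 2 * X.card * X.card ≤ 4 * (r * D) * (Q : ℝ) ^ J * X.card := by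
    have h2 : (E.card : ℝ) * (β ^ r) ^ 2 * X.card * X.card = 4 * ((E.card : ℝ) * (β ^ r * X.card / 2) ^ 2) := by ring
    rw [h2]
    calc 4 * ((E.card : ℝ) * (β ^ r * X.card / 2) ^ 2) ≤ 4 * ((Q : ℝ) ^ J * (X.card * (r * D))) := by linarith
      _ = _ := by ring
  exact le_of_mul_le_mul_right h1 hX0

theorem countP_eq_sum (X : Finset C) (l : List C) : l.countP (· ∈ X) = ∑ c ∈ X, l.count c := by
  induction l with
  | nil => simp
  | cons a l ih =>
    have h1 : ∑ c ∈ X, (a :: l).count c = ∑ c ∈ X, (l.count c + if c = a then 1 else 0) := by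
      refine Finset.sum_congr rfl fun c _ => ?_
      rw [List.count_cons]
      by_cases h : c = a
      · subst h
        simp
      · rw [if_neg h, if_neg]
        intro h'
        exact h (by simpa using (beq_iff_eq.1 h').symm)
    rw [h1, Finset.sum_add_distrib, Finset.sum_ite_eq', ← ih]
    by_cases h : a ∈ X
    · rw [if_pos h, List.countP_cons_of_pos (by simpa using h)]
    · rw [if_neg h, List.countP_cons_of_neg (by simpa using h), add_zero]

theorem card_filter_le_countP (X : Finset C) (l : List C) : (X.filter (· ∈ l)).card ≤ l.countP (· ∈ X) := by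
  rw [countP_eq_sum, Finset.card_filter]
  refine Finset.sum_le_sum fun c _ => ?_
  by_cases h : c ∈ l
  · rw [if_pos h]
    exact List.count_pos_iff.2 h
  · rw [if_neg h]
    exact Nat.zero_le _

theorem count_flatten_ofFn (x : Fin J → List C) (c : C) : (List.ofFn x).flatten.count c = ∑ j, (x j).count c := by
  rw [List.count_flatten, List.map_ofFn, List.sum_ofFn]
  rfl

/-- If each of the elements of `X` occurs at most `r` times, then the list can be cut into `J` parts which can be
distributed to `w + 1` groups such that each group misses many elements of `X`. -/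
theorem gcut_of_count [Fintype C] (l : List C) (X : Finset C) {r D w T : ℕ} (hX : ∀ c ∈ X, l.count c ≤ r)
    (hJ : r * X.card < J * D)
    (h1 : 4 * (r * D) * (w + 1 : ℝ) < ((1 - 1 / (w + 1 : ℝ)) ^ r) ^ 2 * X.card)
    (h2 : 2 * ((Fintype.card C - T : ℕ) : ℝ) ≤ (1 - 1 / (w + 1 : ℝ)) ^ r * X.card) : GCut T (w + 1) J l := by
  classical
  obtain ⟨x, hx1, hx2⟩ := exists_parts X D J l (by
    refine lt_of_le_of_lt ?_ hJ
    rw [countP_eq_sum, Nat.mul_comm, ← smul_eq_mul, ← Finset.sum_const]
    exact Finset.sum_le_sum hX)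
  let A : C → Finset (Fin J) := fun c => Finset.univ.filter fun j => c ∈ x j
  have hA : ∀ c ∈ X, (A c).card ≤ r := by
    intro c hc
    refine le_trans ?_ (hX c hc)
    rw [← hx1, count_flatten_ofFn, Finset.card_filter]
    refine Finset.sum_le_sum fun j _ => ?_
    by_cases h : c ∈ x j
    · rw [if_pos h]
      exact List.count_pos_iff.2 h
    · rw [if_neg h]
      exact Nat.zero_le _
  have hD : ∀ c ∈ X, (X.filter fun c' => ¬ Disjoint (A c) (A c')).card ≤ r * D := by
    intro c hc
    have h3 : (X.filter fun c' => ¬ Disjoint (A c) (A c')) ⊆ (A c).biUnion fun j => X.filter (· ∈ x j) := by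
      intro c' hc'
      obtain ⟨h4, h5⟩ := Finset.mem_filter.1 hc'
      obtain ⟨j, h6, h7⟩ := Finset.not_disjoint_iff.1 h5
      exact Finset.mem_biUnion.2 ⟨j, h6, Finset.mem_filter.2 ⟨h4, (Finset.mem_filter.1 h7).2⟩⟩
    refine (Finset.card_le_card h3).trans (Finset.card_biUnion_le.trans ?_)
    calc ∑ j ∈ A c, (X.filter (· ∈ x j)).card ≤ ∑ _j ∈ A c, D :=
          Finset.sum_le_sum fun j _ => (card_filter_le_countP X (x j)).trans (hx2 j)
      _ = (A c).card * D := by rw [Finset.sum_const, smul_eq_mul]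
      _ ≤ r * D := Nat.mul_le_mul_right _ (hA c hc)
  set β : ℝ := 1 - 1 / (w + 1 : ℝ) with hβ
  have hbad : ∀ q : Fin (w + 1), ((Finset.univ.filter fun π : Fin J → Fin (w + 1) =>
      2 * ((X.filter fun c => ∀ j ∈ A c, π j ≠ q).card : ℝ) < β ^ r * X.card).card : ℝ) *
        (β ^ r) ^ 2 * X.card ≤ 4 * (r * D) * ((w + 1 : ℕ) : ℝ) ^ J := by
    intro q
    have h3 := few_bad (Q := w + 1) (by omega) X A q hA hD
    have h4 : (1 : ℝ) - 1 / ((w + 1 : ℕ) : ℝ) = β := by rw [hβ]; push_cast; rfl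
    rw [h4] at h3
    exact h3
  -- there is a good distribution
  obtain ⟨π, hπ⟩ : ∃ π : Fin J → Fin (w + 1), ∀ q,
      ¬ 2 * ((X.filter fun c => ∀ j ∈ A c, π j ≠ q).card : ℝ) < β ^ r * X.card := by
    by_contra hcon
    push Not at hcon
    have h3 : (Finset.univ : Finset (Fin J → Fin (w + 1))) ⊆ Finset.univ.biUnion (fun q : Fin (w + 1) =>
        Finset.univ.filter fun π : Fin J → Fin (w + 1) =>
          2 * ((X.filter fun c => ∀ j ∈ A c, π j ≠ q).card : ℝ) < β ^ r * X.card) := by
      intro π _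
      obtain ⟨q, hq⟩ := hcon π
      exact Finset.mem_biUnion.2 ⟨q, Finset.mem_univ _, Finset.mem_filter.2 ⟨Finset.mem_univ _, hq⟩⟩
    have h4 := (Finset.card_le_card h3).trans Finset.card_biUnion_le
    rw [Finset.card_univ, Fintype.card_fun, Fintype.card_fin, Fintype.card_fin] at h4
    have h5 : (((w + 1) ^ J : ℕ) : ℝ) ≤ ∑ q : Fin (w + 1), ((Finset.univ.filter fun π : Fin J → Fin (w + 1) =>
        2 * ((X.filter fun c => ∀ j ∈ A c, π j ≠ q).card : ℝ) < β ^ r * X.card).card : ℝ) := by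
      exact_mod_cast h4
    have h6 : (0 : ℝ) ≤ (β ^ r) ^ 2 * X.card := by positivity
    have h7 : ((w + 1 : ℕ) : ℝ) ^ J * ((β ^ r) ^ 2 * X.card) ≤
        (w + 1 : ℝ) * (4 * (r * D) * ((w + 1 : ℕ) : ℝ) ^ J) := by
      calc ((w + 1 : ℕ) : ℝ) ^ J * ((β ^ r) ^ 2 * X.card)
          = (((w + 1) ^ J : ℕ) : ℝ) * ((β ^ r) ^ 2 * X.card) := by push_cast; rfl
        _ ≤ (∑ q : Fin (w + 1), ((Finset.univ.filter fun π : Fin J → Fin (w + 1) =>
            2 * ((X.filter fun c => ∀ j ∈ A c, π j ≠ q).card : ℝ) < β ^ r * X.card).card : ℝ)) *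
              ((β ^ r) ^ 2 * X.card) := mul_le_mul_of_nonneg_right h5 h6
        _ = ∑ q : Fin (w + 1), ((Finset.univ.filter fun π : Fin J → Fin (w + 1) =>
            2 * ((X.filter fun c => ∀ j ∈ A c, π j ≠ q).card : ℝ) < β ^ r * X.card).card : ℝ) *
              (β ^ r) ^ 2 * X.card := by
            rw [Finset.sum_mul]
            refine Finset.sum_congr rfl fun q _ => by ring
        _ ≤ ∑ _q : Fin (w + 1), 4 * (r * D) * ((w + 1 : ℕ) : ℝ) ^ J := Finset.sum_le_sum fun q _ => hbad q
        _ = (w + 1 : ℝ) * (4 * (r * D) * ((w + 1 : ℕ) : ℝ) ^ J) := by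
            rw [Finset.sum_const, Finset.card_univ, Fintype.card_fin, nsmul_eq_mul]
            push_cast
            ring
    have h8 : (0 : ℝ) < ((w + 1 : ℕ) : ℝ) ^ J := by positivity
    have h9 : (β ^ r) ^ 2 * X.card ≤ 4 * (r * D) * (w + 1 : ℝ) := by
      refine le_of_mul_le_mul_left ?_ h8
      calc _ ≤ _ := h7
        _ = _ := by ring
    linarith
  refine ⟨x, π, hx1, fun q => ?_⟩
  have h3 := not_lt.1 (hπ q)
  set N := (X.filter fun c => ∀ j ∈ A c, π j ≠ q).card with hN
  have h4 : 2 * ((Fintype.card C - T : ℕ) : ℝ) ≤ 2 * (N : ℝ) := h2.trans h3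
  have h5 : Fintype.card C - T ≤ N := by
    have : ((Fintype.card C - T : ℕ) : ℝ) ≤ N := by linarith
    exact_mod_cast this
  rw [Nat.card_eq_fintype_card, Fintype.card_subtype]
  have h6 : (Finset.univ.filter fun c => ∃ j, π j = q ∧ c ∈ x j) ⊆ (X.filter fun c => ∀ j ∈ A c, π j ≠ q)ᶜ := by
    intro c hc
    obtain ⟨j, h7, h8⟩ := (Finset.mem_filter.1 hc).2
    rw [Finset.mem_compl, Finset.mem_filter]
    rintro ⟨_, h9⟩
    exact h9 j (Finset.mem_filter.2 ⟨Finset.mem_univ _, h8⟩) h7
  have h7 := Finset.card_le_card h6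
  rw [Finset.card_compl] at h7
  omega

end Pool.Agent.Helper6.PQ
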