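import Pool.Agent.Helper6.PQ.Group
import Pool.Agent.Helper4.PH.Main
import Pool.Agent.Helper18.PH.P1

/-!
# Grouped parts: average over the second entries
-/

namespace Pool.Agent.Helper6.PQ

open Pool.Agent.Helper19.NF Pool.Agent.Helper74.NE Pool.Agent.Helper96.PH Pool.Agent.Helper74.NW
open Pool.Agent.Helper74.NS (Expands)
open Pool.Agent.Helper4.PH (dp_eps nonempty_dir core card_split ends_fix shortest_fix)

variable {n d m : ℕ} {B G : Type} [AddCommGroup B] [AddCommGroup G] [NeZero m] {S : ℕ}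

/-- The error. -/
noncomputable def err (B G : Type) (n d m a R w J S : ℕ) (ρ : ℝ) : ℝ :=
  ((R + 1) * (n * m)) ^ 2 / Nat.card B + Nat.card G * 2 ^ (w + 1) / Real.sqrt (Nat.card B) +
    R * n.choose a * ((d * m) ^ a) ^ 2 * ((S : ℝ) ^ (2 * J)) ^ 2 * (2 / (1 + ρ / 2) ^ (a * m)) +
    2 * ((S * (w + 1)) ^ J * ((d * m + 1) ^ n) ^ (w + 1)) *
      (Nat.card B : ℝ) ^ (-((n - (w + 1) * a : ℕ) * m : ℝ) / 2 ^ (w + 2))

/-- Programs which never give a wrong result and whose shortest computations can be cut into `J` parts and distributed to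
`w + 1` groups, each of which misses a part `ρ` of the cells. -/
theorem sound_main [Fintype B] [Fintype G] (hG : 2 ≤ Fintype.card G) (P : NProg B ((Fin d × Fin m → B) × G) G S)
    (g : Fin d → Equiv.Perm (Fin n)) (x0 : Fin n × Fin m → B)
    (h0 : Function.Injective x0) {R T a w J : ℕ} {ρ : ℝ} (hρ : 0 ≤ ρ)
    (hT : (T : ℝ) ≤ (1 - ρ) * Nat.card B) (ha : 1 ≤ a) (hX : Expands g a) (hS : S ≤ 2 ^ R) (hn : (w + 1) * a ≤ n)
    (hP : ∀ J l z, P.Ends J l z → z = out g x0 R J) :
    (Nat.card {I : B → (Fin d × Fin m → B) × G // (∃ l z, P.Ends I l z) ∧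
        ∀ l z, P.Shortest I l z → GCut T (w + 1) J l} : ℝ) ≤
      err B G n d m a R w J S ρ * Nat.card (B → (Fin d × Fin m → B) × G) := by
  classical
  have hd := nonempty_dir (m := m) ha hX hn
  have h1 := core g x0 h0 (R := R) (w := w) hd
    (A := R * n.choose a * ((d * m) ^ a) ^ 2 * ((S : ℝ) ^ (2 * J)) ^ 2 * (2 / (1 + ρ / 2) ^ (a * m))) (by positivity)
    (n - (w + 1) * a) (K := 2 * ((S * (w + 1)) ^ J * ((d * m + 1) ^ n) ^ (w + 1))) (by positivity)
    (fun γ I => (∃ l z, (fix P γ).Ends I l z) ∧ ∀ l z, (fix P γ).Shortest I l z → GCut T (w + 1) J l)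
    (fun _ => 0) (fun _ => le_rfl) (Pool.Agent.Helper18.PH.bns2 B G w) (fun γ E hE hq => by
      rw [zero_add]
      exact sound_bound hG (fix P γ) g x0 (dp_eps hρ hT) ha hX hS γ hE (N := n - (w + 1) * a) (by omega) hq
        (fun I l z h => hP _ l z (ends_fix.1 h)))
  rw [Finset.sum_const_zero, zero_add] at h1
  rw [card_split]
  push_cast
  unfold err
  refine le_trans (le_of_eq (Finset.sum_congr rfl fun γ _ => ?_)) h1
  simp only [ends_fix, shortest_fix]

end Pool.Agent.Helper6.PQ
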