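import Pool.Agent.Helper6.PQ.Coh
import Pool.Agent.Helper6.PH.Pieces

/-!
# Several best computations
-/

namespace Pool.Agent.Helper6.PQ

open Pool.Agent.Helper74.NW Pool.Agent.Helper74.NE Pool.Agent.Helper19.NF
open Pool.Agent.Helper74.NS (Expands)
open Pool.Agent.Helper66.NE (best_split)
open Pool.Agent.Helper6.PH (best_nil)

section words

variable {C W Z : Type} {S K : ℕ} {P : NProg C W Z S} {e : C → Fin K} {I I' : C → W}

/-- The list is the concatenation of lists of best computations between the given states. -/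
def MB (P : NProg C W Z S) (e : C → Fin K) (I : C → W) : List (Fin S × Fin S) → List C → Prop
  | [], l => l = []
  | s :: k, l => ∃ x y, l = x ++ y ∧ Best P e I s.1 x s.2 ∧ MB P e I k y

theorem mb_replicate (s : Fin S) : (n : ℕ) → MB P e I (List.replicate n (s, s)) []
  | 0 => rfl
  | n + 1 => ⟨[], [], rfl, best_nil s, mb_replicate s n⟩

/-- Cutting at one point. -/
theorem mb_split : (k : List (Fin S × Fin S)) → {a b : List C} → MB P e I k (a ++ b) →
    ∃ k₁ k₂, k₁.length = k.length ∧ k₂.length = k.length ∧ MB P e I k₁ a ∧ MB P e I k₂ b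
  | [], a, b, h => by
    have h1 : a ++ b = [] := h
    obtain ⟨h2, h3⟩ := List.append_eq_nil_iff.1 h1
    exact ⟨[], [], rfl, rfl, h2, h3⟩
  | s :: k, a, b, ⟨x, y, h1, h2, h3⟩ => by
    rcases List.append_eq_append_iff.1 h1 with ⟨a', h4, h5⟩ | ⟨c', h4, h5⟩
    · rw [h4] at h2
      obtain ⟨r, h6, h7⟩ := best_split h2
      refine ⟨(s.1, r) :: List.replicate k.length (r, r), (r, s.2) :: k, by simp, rfl,
        ⟨a, [], by simp, h6, mb_replicate r _⟩, ⟨a', y, h5, h7, h3⟩⟩
    · rw [h5] at h3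
      obtain ⟨k₁, k₂, h6, h7, h8, h9⟩ := mb_split k h3
      exact ⟨s :: k₁, (s.1, s.1) :: k₂, by simp [h6], by simp [h7], ⟨x, c', h4, h2, h8⟩,
        ⟨[], b, rfl, best_nil _, h9⟩⟩

/-- Two words of the same kind for inputs which agree on both are equal. -/
theorem mb_unique (he : Function.Injective e) : (k : List (Fin S × Fin S)) → {w w' : List C} →
    MB P e I k w → MB P e I' k w' → (∀ c ∈ w, I c = I' c) → (∀ c ∈ w', I c = I' c) → w = w'
  | [], w, w', h, h', _, _ => by
    have h1 : w = [] := h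
    have h2 : w' = [] := h'
    rw [h1, h2]
  | s :: k, w, w', ⟨x, y, h1, h2, h3⟩, ⟨x', y', h4, h5, h6⟩, h7, h8 => by
    subst h1
    subst h4
    have e1 : x = x' := by
      refine Best.unique he h2 h5 (run_congr h5.run fun c hc => (h8 c ?_).symm) (run_congr h2.run fun c hc => h7 c ?_)
      · exact List.mem_append_left _ hc
      · exact List.mem_append_left _ hc
    have e2 : y = y' := mb_unique he k h3 h6 (fun c hc => h7 c (List.mem_append_right _ hc))
      (fun c hc => h8 c (List.mem_append_right _ hc))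
    rw [e1, e2]

/-- `J` best computations. -/
def MF (P : NProg C W Z S) (e : C → Fin K) (J : ℕ) (k : List.Vector (Fin S × Fin S) J) (I : C → W) (l : List C) :
    Prop := MB P e I k.1 l

theorem mf_coh (he : Function.Injective e) (J : ℕ) : Coh (MF P e J) :=
  fun k _ _ _ _ h h' h1 h2 => mb_unique he k.1 h h' h1 h2

theorem mf_sub (J : ℕ) : Sub (MF P e J) := by
  intro k I p w q h
  obtain ⟨k₁, _, h1, _, h2, _⟩ := mb_split k.1 h
  obtain ⟨_, k₂, _, h3, _, h4⟩ := mb_split k₁ h2
  exact ⟨⟨k₂, by rw [h3, h1]; exact k.2⟩, h4⟩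

/-- The word which consists of the words number `j`. -/
theorem mb_ofFn : {J : ℕ} → (k : Fin J → Fin S × Fin S) → (x : Fin J → List C) →
    (∀ j, Best P e I (k j).1 (x j) (k j).2) → MB P e I (List.ofFn k) (List.ofFn x).flatten
  | 0, k, x, _ => by simp [MB]
  | J + 1, k, x, h => by
    rw [List.ofFn_succ, List.ofFn_succ]
    exact ⟨x 0, _, rfl, h 0, mb_ofFn (fun j => k j.succ) (fun j => x j.succ) fun j => h j.succ⟩

end words

variable {n d m : ℕ} {B : Type} [AddCommGroup B] [NeZero m] {S K : ℕ}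

/-- `J` windows from any states to any states: if at most `T` cells are inspected in them and all the letters of at least
`4 a` nodes of the row `R`, then together they are longer than `2 ^ R`, with few exceptions. -/
theorem good_bound_multi [Fintype B] {Z : Type} (P : NProg B (Fin d × Fin m → B) Z S) (e : B → Fin K)
    (he : Function.Injective e) (J : ℕ) (g : Fin d → Equiv.Perm (Fin n)) (x0 : Fin n × Fin m → B)
    {R T a : ℕ} {δ : ℝ} (hδ : DP B (Fin a × Fin m) T δ) (ha : 1 ≤ a) (hE : Expands g a) :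
    (Nat.card {I : B → Fin d × Fin m → B // CF (fine g) x0 R I ∧ ∃ (s : Fin J → Fin S × Fin S) (x : Fin J → List B),
        (∀ j, Best P e I (s j).1 (x j) (s j).2) ∧ Nat.card {c // c ∈ (List.ofFn x).flatten} ≤ T ∧
        4 * a ≤ (full g x0 I R (List.ofFn x).flatten).card ∧ (List.ofFn x).flatten.length ≤ 2 ^ R} : ℝ) ≤
      R * n.choose a * ((d * m) ^ a) ^ 2 * ((S : ℝ) ^ (2 * J)) ^ 2 * δ * Nat.card (B → Fin d × Fin m → B) := by
  classical
  have h1 := good_bound (mf_coh (P := P) he J) (mf_sub J) g x0 (R := R) hδ ha hE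
  have hc : Fintype.card (List.Vector (Fin S × Fin S) J) = S ^ (2 * J) := by
    rw [card_vector, Fintype.card_prod, Fintype.card_fin, pow_mul, pow_two]
  rw [hc] at h1
  push_cast at h1
  refine le_trans ?_ h1
  have hsub : Nat.card {I : B → Fin d × Fin m → B // CF (fine g) x0 R I ∧
      ∃ (s : Fin J → Fin S × Fin S) (x : Fin J → List B),
        (∀ j, Best P e I (s j).1 (x j) (s j).2) ∧ Nat.card {c // c ∈ (List.ofFn x).flatten} ≤ T ∧
        4 * a ≤ (full g x0 I R (List.ofFn x).flatten).card ∧ (List.ofFn x).flatten.length ≤ 2 ^ R} ≤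
      Nat.card {I : B → Fin d × Fin m → B // CF (fine g) x0 R I ∧ ∃ k l, MF P e J k I l ∧
        Nat.card {c // c ∈ l} ≤ T ∧ 4 * a ≤ (full g x0 I R l).card ∧ l.length ≤ 2 ^ R} := by
    refine Nat.card_le_card_of_injective (fun I => ⟨I.1, I.2.1, ?_⟩) ?_
    · obtain ⟨s, x, h2, h3⟩ := I.2.2
      exact ⟨⟨List.ofFn s, List.length_ofFn⟩, _, mb_ofFn s x h2, h3⟩
    · intro I I' h
      exact Subtype.ext (congrArg (fun z => z.1) h)
  exact_mod_cast hsub

end Pool.Agent.Helper6.PQ
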