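import Pool.Agent.Helper96.PH.Type

/-!
# The inputs of one type, in general
-/

namespace Pool.Agent.Helper6.PQ

open Pool.Agent.Helper19.NF Pool.Agent.Helper74.NW Pool.Agent.Helper74.NE Pool.Agent.Helper96.PH

variable {n d m : ℕ} {B G : Type} [AddCommGroup B] [AddCommGroup G] [NeZero m]

/-- For every `l` there is a word with the property `Q l` and the missing letters `τ l`. -/
def InQ (g : Fin d → Equiv.Perm (Fin n)) (x0 : Fin n × Fin m → B) (R : ℕ)
    {w : ℕ} (τ : Fin (w + 1) → Fin n → Option (Fin d × Fin m))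
    (Q : Fin (w + 1) → (B → Fin d × Fin m → B) → List B → Prop) (I : B → Fin d × Fin m → B) : Prop :=
  ∀ l : Fin (w + 1), ∃ x : List B, Q l I x ∧ ∀ v, miss g x0 I R x v = τ l v

/-- The inputs of one type. -/
theorem type_bound' [Fintype B] [Fintype G]
    (g : Fin d → Equiv.Perm (Fin n)) (x0 : Fin n × Fin m → B) {R w : ℕ} {E : ℝ} (γ : B → G)
    (τ : Fin (w + 1) → Fin n → Option (Fin d × Fin m))
    (hE : CB γ (Fin (opn τ).card × Fin m) w E) (Q : Fin (w + 1) → (B → Fin d × Fin m → B) → List B → Prop)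
    (hQ : ∀ l I I' x, Q l I x → (∀ b ∈ x, I b = I' b) → Q l I' x) (a : G) :
    (Nat.card {I : B → Fin d × Fin m → B // CF (fine g) x0 R I ∧ InQ g x0 R τ Q I ∧
        gout g x0 R γ I = a} : ℝ) ≤
      Nat.card {I : B → Fin d × Fin m → B // CF (fine g) x0 R I ∧ InQ g x0 R τ Q I} / Nat.card G +
        E * Nat.card (B → Fin d × Fin m → B) := by
  classical
  set p := (opn τ).card with hp
  let u : Fin p → Fin n := (opn τ).orderEmbOfFin hp.symm
  have hu : Function.Injective u := ((opn τ).orderEmbOfFin hp.symm).injective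
  have hmem : ∀ l j, (τ l (u j)).isSome := by
    intro l j
    have h1 : u j ∈ opn τ := (opn τ).orderEmbOfFin_mem hp.symm j
    unfold opn at h1
    exact (Finset.mem_filter.mp h1).2 l
  let r : Fin (w + 1) → Fin p → Fin d × Fin m := fun l j => (τ l (u j)).get (hmem l j)
  have hr : ∀ l j, τ l (u j) = some (r l j) := fun l j => (Option.some_get (hmem l j)).symm
  have hY0 : (0 : ℝ) < Nat.card (Fin (w + 1) → Fin p × Fin m → B) := by
    exact_mod_cast Nat.card_pos
  have hE0 : 0 ≤ E := by
    have h1 := hE 0 (fun _ => ∅) (fun l y z h => h) 0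
    have h2 : IsEmpty {y : Fin (w + 1) → Fin p × Fin m → B // ∀ l : Fin (w + 1), y ∈ (∅ : Set _)} :=
      ⟨fun y => y.2 0⟩
    rw [Nat.card_of_isEmpty (α := {y : Fin (w + 1) → Fin p × Fin m → B // ∀ l : Fin (w + 1), y ∈ (∅ : Set _)})] at h1
    have h3 : (0 : ℝ) ≤ E * Nat.card (Fin (w + 1) → Fin p × Fin m → B) := by
      refine le_trans ?_ (h1.trans (le_of_eq ?_))
      · positivity
      · simp
    by_contra h4
    push Not at h4
    have := mul_neg_of_neg_of_pos h4 hY0
    linarith
  -- one class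
  have key : ∀ I : {I : B → Fin d × Fin m → B // CF (fine g) x0 R I},
      (Nat.card {y : Fin (w + 1) → Fin p × Fin m → B //
        InQ g x0 R τ Q (shw g x0 R u r y I.1) ∧ gout g x0 R γ (shw g x0 R u r y I.1) = a} : ℝ) ≤
      Nat.card {y : Fin (w + 1) → Fin p × Fin m → B // InQ g x0 R τ Q (shw g x0 R u r y I.1)} / Nat.card G +
        E * Nat.card (Fin (w + 1) → Fin p × Fin m → B) := by
    rintro ⟨I, hI⟩
    let C : Fin (w + 1) → Set (Fin (w + 1) → Fin p × Fin m → B) := fun l =>
      {y | ∃ x : List B, Q l (shw g x0 R u r y I) x ∧ ∀ v, miss g x0 I R x v = τ l v}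
    have hC : ∀ l y z, y ∈ C l → Function.update y l z ∈ C l := by
      rintro l y z ⟨x, h1, h3⟩
      refine ⟨x, hQ l _ _ x h1 fun b hb => ?_, h3⟩
      refine (shw_update l z fun j hj => ?_).symm
      have h4 : miss g x0 I R x (u j) = some (r l j) := by rw [h3, hr]
      have h5 := of_miss h4
      rw [hj] at hb
      exact h5 hb
    have hin : ∀ y, InQ g x0 R τ Q (shw g x0 R u r y I) ↔ ∀ l, y ∈ C l := by
      intro y
      unfold InQ
      simp only [miss_shw hI]
      rfl
    have h1 := hE (fun c => val (fine g) x0 I (R + 1) (u c.1, c.2)) C hC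
      (a - ∑ v ∈ Finset.univ.filter (fun v : Fin n × Fin m => v.1 ∉ Set.range u), γ (val (fine g) x0 I (R + 1) v))
    have h2 : ∀ y, (InQ g x0 R τ Q (shw g x0 R u r y I) ∧ gout g x0 R γ (shw g x0 R u r y I) = a) ↔
        ((∀ l, y ∈ C l) ∧ ∑ c : Fin p × Fin m, γ (val (fine g) x0 I (R + 1) (u c.1, c.2) + ∑ l, y l c) =
          a - ∑ v ∈ Finset.univ.filter (fun v : Fin n × Fin m => v.1 ∉ Set.range u),
            γ (val (fine g) x0 I (R + 1) v)) := by
      intro y
      rw [hin y, gout_shw hI hu, eq_sub_iff_add_eq']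
    rw [Nat.card_congr (Equiv.subtypeEquivRight h2), Nat.card_congr (Equiv.subtypeEquivRight hin)]
    exact h1
  have h1 := card_avg (g := g) (x0 := x0) (R := R) (p := p) (w := w) (u := u) (r := r)
    (fun I => InQ g x0 R τ Q I ∧ gout g x0 R γ I = a)
  have h2 := card_avg (g := g) (x0 := x0) (R := R) (p := p) (w := w) (u := u) (r := r)
    (fun I => InQ g x0 R τ Q I)
  have h3 : (Nat.card {I : B → Fin d × Fin m → B // CF (fine g) x0 R I ∧ InQ g x0 R τ Q I ∧
        gout g x0 R γ I = a} : ℝ) * Nat.card (Fin (w + 1) → Fin p × Fin m → B) ≤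
      (Nat.card {I : B → Fin d × Fin m → B // CF (fine g) x0 R I ∧ InQ g x0 R τ Q I} / Nat.card G +
        E * Nat.card (B → Fin d × Fin m → B)) * Nat.card (Fin (w + 1) → Fin p × Fin m → B) := by
    calc (Nat.card {I : B → Fin d × Fin m → B // CF (fine g) x0 R I ∧ InQ g x0 R τ Q I ∧
          gout g x0 R γ I = a} : ℝ) * Nat.card (Fin (w + 1) → Fin p × Fin m → B)
        = ∑ I : {I : B → Fin d × Fin m → B // CF (fine g) x0 R I},
            (Nat.card {y : Fin (w + 1) → Fin p × Fin m → B //
              InQ g x0 R τ Q (shw g x0 R u r y I.1) ∧ gout g x0 R γ (shw g x0 R u r y I.1) = a} : ℝ) := by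
          exact_mod_cast h1
      _ ≤ ∑ I : {I : B → Fin d × Fin m → B // CF (fine g) x0 R I},
            ((Nat.card {y : Fin (w + 1) → Fin p × Fin m → B //
              InQ g x0 R τ Q (shw g x0 R u r y I.1)} : ℝ) / Nat.card G +
              E * Nat.card (Fin (w + 1) → Fin p × Fin m → B)) := Finset.sum_le_sum fun I _ => key I
      _ = (Nat.card {I : B → Fin d × Fin m → B // CF (fine g) x0 R I ∧ InQ g x0 R τ Q I} : ℝ) *
            Nat.card (Fin (w + 1) → Fin p × Fin m → B) / Nat.card G +
            Fintype.card {I : B → Fin d × Fin m → B // CF (fine g) x0 R I} *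
              (E * Nat.card (Fin (w + 1) → Fin p × Fin m → B)) := by
          rw [Finset.sum_add_distrib, Finset.sum_const, Finset.card_univ, nsmul_eq_mul, ← Finset.sum_div]
          congr 2
          exact_mod_cast h2.symm
      _ ≤ _ := by
          have h4 : (Fintype.card {I : B → Fin d × Fin m → B // CF (fine g) x0 R I} : ℝ) ≤
              Nat.card (B → Fin d × Fin m → B) := by
            rw [Nat.card_eq_fintype_card]
            exact_mod_cast Fintype.card_subtype_le _
          have h5 := mul_le_mul_of_nonneg_right h4 (mul_nonneg hE0 hY0.le)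
          rw [add_mul]
          have h6 : (Nat.card {I : B → Fin d × Fin m → B // CF (fine g) x0 R I ∧ InQ g x0 R τ Q I} : ℝ) *
            Nat.card (Fin (w + 1) → Fin p × Fin m → B) / Nat.card G =
            (Nat.card {I : B → Fin d × Fin m → B // CF (fine g) x0 R I ∧ InQ g x0 R τ Q I} : ℝ) / Nat.card G *
              Nat.card (Fin (w + 1) → Fin p × Fin m → B) := by ring
          rw [h6]
          have h7 : E * (Nat.card (B → Fin d × Fin m → B) : ℝ) * Nat.card (Fin (w + 1) → Fin p × Fin m → B) =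
            Nat.card (B → Fin d × Fin m → B) * (E * Nat.card (Fin (w + 1) → Fin p × Fin m → B)) := by ring
          rw [h7]
          linarith
  exact le_of_mul_le_mul_right h3 hY0

end Pool.Agent.Helper6.PQ
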