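import Pool.Agent.Helper6.PQ.Multi
import Pool.Agent.Helper6.PQ.Type
import Pool.Agent.Helper78.PH.Sum

/-!
# All types, for computations cut into `J` parts which are distributed to `w + 1` groups
-/

namespace Pool.Agent.Helper6.PQ

open Pool.Agent.Helper74.NW Pool.Agent.Helper74.NE Pool.Agent.Helper19.NF Pool.Agent.Helper96.PH
open Pool.Agent.Helper74.NS (Expands)
open Pool.Agent.Helper66.NE (best_split)
open Pool.Agent.Helper6.PH (best_nil)
open Pool.Agent.Helper78.PH (card_le_add_sum run_flatten opn_card)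

section lists

variable {C : Type} {J Q : ℕ}

/-- The list can be cut into `J` parts, and the parts can be distributed to `Q` groups, such that the parts of each group
together have at most `T` different elements. -/
def GCut (T Q J : ℕ) (l : List C) : Prop :=
  ∃ (x : Fin J → List C) (π : Fin J → Fin Q), (List.ofFn x).flatten = l ∧
    ∀ q, Nat.card {c // ∃ j, π j = q ∧ c ∈ x j} ≤ T

/-- The parts of the group number `q`, one after the other. -/
def grp (x : Fin J → List C) (π : Fin J → Fin Q) (q : Fin Q) : List C :=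
  (List.ofFn fun j => if π j = q then x j else []).flatten

theorem mem_grp {x : Fin J → List C} {π : Fin J → Fin Q} {q : Fin Q} {c : C} :
    c ∈ grp x π q ↔ ∃ j, π j = q ∧ c ∈ x j := by
  unfold grp
  rw [List.mem_flatten]
  constructor
  · rintro ⟨l, h1, h2⟩
    rw [List.mem_ofFn] at h1
    obtain ⟨j, rfl⟩ := h1
    by_cases h3 : π j = q
    · rw [if_pos h3] at h2
      exact ⟨j, h3, h2⟩
    · rw [if_neg h3] at h2
      exact absurd h2 List.not_mem_nil
  · rintro ⟨j, h1, h2⟩
    refine ⟨if π j = q then x j else [], ?_, ?_⟩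
    · rw [List.mem_ofFn]
      exact ⟨j, rfl⟩
    · rw [if_pos h1]
      exact h2

theorem length_flatten_ofFn (x : Fin J → List C) : (List.ofFn x).flatten.length = ∑ j, (x j).length := by
  rw [List.length_flatten, List.map_ofFn, List.sum_ofFn]
  rfl

theorem length_grp (x : Fin J → List C) (π : Fin J → Fin Q) (q : Fin Q) :
    (grp x π q).length ≤ (List.ofFn x).flatten.length := by
  unfold grp
  rw [length_flatten_ofFn, length_flatten_ofFn]
  refine Finset.sum_le_sum fun j _ => ?_
  by_cases h : π j = q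
  · rw [if_pos h]
  · rw [if_neg h]
    exact Nat.zero_le _

end lists

section words

variable {C W Z : Type} {S K : ℕ} {P : NProg C W Z S} {e : C → Fin K} {I : C → W}

/-- The states at the cuts of a best computation. -/
theorem best_ofFn : {J : ℕ} → (x : Fin J → List C) → {s t : Fin S} → Best P e I s (List.ofFn x).flatten t →
    ∃ σ : Fin (J + 1) → Fin S, σ 0 = s ∧ σ (Fin.last J) = t ∧ ∀ j, Best P e I (σ j.castSucc) (x j) (σ j.succ)
  | 0, x, s, t, h => by
    have h1 := h.run
    rw [List.ofFn_zero, List.flatten_nil] at h1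
    have h2 : s = t := by
      cases h1
      rfl
    exact ⟨fun _ => s, rfl, h2, fun j => j.elim0⟩
  | J + 1, x, s, t, h => by
    rw [List.ofFn_succ, List.flatten_cons] at h
    obtain ⟨r, h1, h2⟩ := best_split h
    obtain ⟨σ, h3, h4, h5⟩ := best_ofFn (fun j => x j.succ) h2
    refine ⟨Fin.cons s σ, rfl, ?_, fun j => ?_⟩
    · rw [← Fin.succ_last, Fin.cons_succ, h4]
    · refine Fin.cases ?_ (fun j => ?_) j
      · rw [Fin.castSucc_zero, Fin.cons_zero, Fin.cons_succ, h3]
        exact h1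
      · rw [Fin.cons_succ, ← Fin.succ_castSucc, Fin.cons_succ]
        exact h5 j

/-- The word `x` consists of the words number `j`, for all `j` in the group number `q`, which are runs between the given
states. -/
def QQ {J Q : ℕ} (P : NProg C W Z S) (σ : Fin (J + 1) → Fin S) (π : Fin J → Fin Q) (q : Fin Q) (I : C → W)
    (x : List C) : Prop :=
  ∃ V : Fin J → List C, (∀ j, π j = q → P.Run I (σ j.castSucc) (V j) (σ j.succ)) ∧ x = grp V π q

theorem qq_congr {J Q : ℕ} {σ : Fin (J + 1) → Fin S} {π : Fin J → Fin Q} (q : Fin Q) (I I' : C → W)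
    (x : List C) (h : QQ P σ π q I x) (hI : ∀ b ∈ x, I b = I' b) : QQ P σ π q I' x := by
  obtain ⟨V, h1, h2⟩ := h
  refine ⟨V, fun j hj => run_congr (h1 j hj) fun c hc => hI c ?_, h2⟩
  rw [h2, mem_grp]
  exact ⟨j, hj, hc⟩

end words

variable {n d m : ℕ} {B G Z : Type} [AddCommGroup B] [AddCommGroup G] [NeZero m] {S K : ℕ}
variable {g : Fin d → Equiv.Perm (Fin n)} {x0 : Fin n × Fin m → B}

/-- The states. -/
def sg {J : ℕ} (P : NProg B (Fin d × Fin m → B) Z S) (σ : Fin J → Fin S) : Fin (J + 1) → Fin S :=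
  Fin.cons P.start σ

/-- The types: the states at the ends of the parts, the groups, and the missing letters. -/
abbrev Ty (P : NProg B (Fin d × Fin m → B) Z S) (n w J N : ℕ) : Type :=
  {θ : ((Fin J → Fin S) × (Fin J → Fin (w + 1))) × (Fin (w + 1) → Fin n → Option (Fin d × Fin m)) //
    N ≤ (opn θ.2).card ∧ ∃ z, P.act (sg P θ.1.1 (Fin.last J)) = Sum.inr z}

noncomputable instance (P : NProg B (Fin d × Fin m → B) Z S) (n w J N : ℕ) : Fintype (Ty P n w J N) :=
  Fintype.ofFinite _

theorem card_Ty (P : NProg B (Fin d × Fin m → B) Z S) (n w J N : ℕ) :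
    Nat.card (Ty P n w J N) ≤ (S * (w + 1)) ^ J * ((d * m + 1) ^ n) ^ (w + 1) := by
  refine (Nat.card_le_card_of_injective _ Subtype.val_injective).trans (le_of_eq ?_)
  rw [Nat.card_prod, Nat.card_prod, Nat.card_fun, Nat.card_fun, Nat.card_fun, Nat.card_fun]
  simp only [Nat.card_eq_fintype_card, Fintype.card_fin, Fintype.card_option, Fintype.card_prod]
  rw [mul_pow]

/-- Programs which never give a wrong result, for fixed `γ`. -/
theorem sound_bound [Fintype B] [Fintype G] (hG : 2 ≤ Fintype.card G) (P : NProg B (Fin d × Fin m → B) G S)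
    (g : Fin d → Equiv.Perm (Fin n)) (x0 : Fin n × Fin m → B) {R T a w J N : ℕ} {δ E : ℝ}
    (hδ : DP B (Fin a × Fin m) T δ) (ha : 1 ≤ a) (hX : Expands g a) (hS : S ≤ 2 ^ R) (γ : B → G) (hE0 : 0 ≤ E)
    (hN : N + (w + 1) * a ≤ n) (hE : ∀ p, N ≤ p → CB γ (Fin p × Fin m) w E)
    (hP : ∀ I l z, P.Ends I l z → z = gout g x0 R γ I) :
    (Nat.card {I : B → Fin d × Fin m → B // CF (fine g) x0 R I ∧ (∃ l z, P.Ends I l z) ∧
        ∀ l z, P.Shortest I l z → GCut T (w + 1) J l} : ℝ) ≤
      (R * n.choose a * ((d * m) ^ a) ^ 2 * ((S : ℝ) ^ (2 * J)) ^ 2 * δ +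
        2 * ((S * (w + 1)) ^ J * ((d * m + 1) ^ n) ^ (w + 1)) * E) * Nat.card (B → Fin d × Fin m → B) := by
  classical
  let e := Fintype.equivFin B
  have hgood := good_bound_multi (R := R) P e e.injective J g x0 hδ ha hX
  -- every input is good or has a type
  have hcov : ∀ I : B → Fin d × Fin m → B, (CF (fine g) x0 R I ∧ (∃ l z, P.Ends I l z) ∧
      ∀ l z, P.Shortest I l z → GCut T (w + 1) J l) →
      (CF (fine g) x0 R I ∧ ∃ (s : Fin J → Fin S × Fin S) (x : Fin J → List B),
        (∀ j, Best P e I (s j).1 (x j) (s j).2) ∧ Nat.card {c // c ∈ (List.ofFn x).flatten} ≤ T ∧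
        4 * a ≤ (full g x0 I R (List.ofFn x).flatten).card ∧ (List.ofFn x).flatten.length ≤ 2 ^ R) ∨
      ∃ θ : Ty P n w J N, CF (fine g) x0 R I ∧ InQ g x0 R θ.1.2 (QQ P (sg P θ.1.1.1) θ.1.1.2) I := by
    rintro I ⟨hI, ⟨l0, z0, h0⟩, hcut⟩
    obtain ⟨l, z, t, hb, hz, hs⟩ := exists_best e h0
    obtain ⟨x, π, hx1, hx2⟩ := hcut l z hs
    have hlen : l.length ≤ 2 ^ R := (run_short hb.run hb.len).le.trans hS
    rw [← hx1] at hb hlen
    obtain ⟨σ, hσ0, hσ1, hσ2⟩ := best_ofFn x hb
    by_cases hc : ∃ q, a ≤ (comp g x0 I R (grp x π q)).card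
    · obtain ⟨q, hq⟩ := hc
      refine Or.inl ⟨hI, fun j => if π j = q then (σ j.castSucc, σ j.succ) else (t, t),
        fun j => if π j = q then x j else [], fun j => ?_, ?_, ?_, ?_⟩
      · by_cases h : π j = q
        · simp only [if_pos h]
          exact hσ2 j
        · simp only [if_neg h]
          exact best_nil t
      · refine le_trans (le_of_eq (Nat.card_congr (Equiv.subtypeEquivRight fun c => ?_))) (hx2 q)
        exact mem_grp
      · exact Pool.Agent.Helper66.PH.full_of_comp hX hq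
      · exact (length_grp x π q).trans hlen
    · push Not at hc
      have h1 : ∀ k : Fin (J + 1), sg P (fun j : Fin J => σ j.succ) k = σ k := by
        intro k
        unfold sg
        refine Fin.cases ?_ (fun k => ?_) k
        · rw [Fin.cons_zero, hσ0]
        · rw [Fin.cons_succ]
      refine Or.inr ⟨⟨((fun j => σ j.succ, π), fun q v => miss g x0 I R (grp x π q) v), ?_, z, ?_⟩, hI, ?_⟩
      · have h2 := opn_card (fun q => grp x π q) hc
        show N ≤ (opn (fun q v => miss g x0 I R (grp x π q) v)).card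
        omega
      · show P.act (sg P (fun j : Fin J => σ j.succ) (Fin.last J)) = Sum.inr z
        rw [h1, hσ1]
        exact hz
      · intro q
        refine ⟨grp x π q, ⟨x, fun j _ => ?_, rfl⟩, fun v => rfl⟩
        show P.Run I (sg P (fun j : Fin J => σ j.succ) j.castSucc) (x j) (sg P (fun j : Fin J => σ j.succ) j.succ)
        rw [h1, h1]
        exact (hσ2 j).run
  have h1 := card_le_add_sum hcov
  -- one type
  have hone : ∀ θ : Ty P n w J N, (Nat.card {I : B → Fin d × Fin m → B // CF (fine g) x0 R I ∧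
      InQ g x0 R θ.1.2 (QQ P (sg P θ.1.1.1) θ.1.1.2) I} : ℝ) ≤ 2 * E * Nat.card (B → Fin d × Fin m → B) := by
    intro θ
    obtain ⟨z, hz⟩ := θ.2.2
    have h2 := type_bound' (R := R) g x0 γ θ.1.2 (hE _ θ.2.1) (QQ P (sg P θ.1.1.1) θ.1.1.2)
      (fun q I I' x h hI => qq_congr q I I' x h hI) z
    have h3 : ∀ I : B → Fin d × Fin m → B, (CF (fine g) x0 R I ∧
        InQ g x0 R θ.1.2 (QQ P (sg P θ.1.1.1) θ.1.1.2) I ∧ gout g x0 R γ I = z) ↔
        (CF (fine g) x0 R I ∧ InQ g x0 R θ.1.2 (QQ P (sg P θ.1.1.1) θ.1.1.2) I) := by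
      intro I
      refine ⟨fun h => ⟨h.1, h.2.1⟩, fun h => ⟨h.1, h.2, ?_⟩⟩
      choose x hx using h.2
      choose V hV using fun q => (hx q).1
      have h4 := run_flatten J (sg P θ.1.1.1) (fun j => V (θ.1.1.2 j) j) (fun j => (hV (θ.1.1.2 j)).1 j rfl)
      exact (hP I _ z ⟨_, h4, hz⟩).symm
    rw [Nat.card_congr (Equiv.subtypeEquivRight h3)] at h2
    set A : ℝ := (Nat.card {I : B → Fin d × Fin m → B // CF (fine g) x0 R I ∧
      InQ g x0 R θ.1.2 (QQ P (sg P θ.1.1.1) θ.1.1.2) I} : ℝ) with hA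
    have hA0 : 0 ≤ A := Nat.cast_nonneg _
    have hG' : (2 : ℝ) ≤ Nat.card G := by
      rw [Nat.card_eq_fintype_card]
      exact_mod_cast hG
    have h5 : A / Nat.card G ≤ A / 2 := div_le_div_of_nonneg_left hA0 (by norm_num) hG'
    linarith
  have h2 : (Nat.card {I : B → Fin d × Fin m → B // CF (fine g) x0 R I ∧ (∃ l z, P.Ends I l z) ∧
        ∀ l z, P.Shortest I l z → GCut T (w + 1) J l} : ℝ) ≤
      (Nat.card {I : B → Fin d × Fin m → B // CF (fine g) x0 R I ∧
        ∃ (s : Fin J → Fin S × Fin S) (x : Fin J → List B),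
        (∀ j, Best P e I (s j).1 (x j) (s j).2) ∧ Nat.card {c // c ∈ (List.ofFn x).flatten} ≤ T ∧
        4 * a ≤ (full g x0 I R (List.ofFn x).flatten).card ∧ (List.ofFn x).flatten.length ≤ 2 ^ R} : ℝ) +
        ∑ θ : Ty P n w J N, (Nat.card {I : B → Fin d × Fin m → B // CF (fine g) x0 R I ∧
          InQ g x0 R θ.1.2 (QQ P (sg P θ.1.1.1) θ.1.1.2) I} : ℝ) := by exact_mod_cast h1
  refine h2.trans ?_
  rw [add_mul]
  refine add_le_add hgood ?_
  calc ∑ θ : Ty P n w J N, (Nat.card {I : B → Fin d × Fin m → B // CF (fine g) x0 R I ∧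
          InQ g x0 R θ.1.2 (QQ P (sg P θ.1.1.1) θ.1.1.2) I} : ℝ)
      ≤ ∑ _θ : Ty P n w J N, 2 * E * Nat.card (B → Fin d × Fin m → B) := Finset.sum_le_sum fun θ _ => hone θ
    _ = Nat.card (Ty P n w J N) * (2 * E * Nat.card (B → Fin d × Fin m → B)) := by
        rw [Finset.sum_const, Finset.card_univ, nsmul_eq_mul, Nat.card_eq_fintype_card (α := Ty P n w J N)]
    _ ≤ ((S * (w + 1)) ^ J * ((d * m + 1) ^ n) ^ (w + 1) : ℕ) * (2 * E * Nat.card (B → Fin d × Fin m → B)) := by
        refine mul_le_mul_of_nonneg_right ?_ (by positivity)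
        exact_mod_cast card_Ty P n w J N
    _ = _ := by
        push_cast
        ring

end Pool.Agent.Helper6.PQ
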